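import Mathlib

/-!
# Legal sequences and the gluing of legal blocks
-/

set_option autoImplicit false

namespace Pool.Agent.E8helper30.Prox

/-- A two-sided sequence is legal if for every `k` each window of length `2 * 4 ^ k` contains a run
of `k` zeros. -/
def Legal (x : ℤ → Bool) : Prop :=
  ∀ (k : ℕ) (a : ℤ), ∃ b : ℤ, a ≤ b ∧ b + k ≤ a + 2 * 4 ^ k ∧
    ∀ i : ℤ, b ≤ i → i < b + k → x i = false

theorem le_four_pow (k : ℕ) : k ≤ 4 ^ k := (Nat.lt_pow_self (by norm_num)).le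

theorem Legal.shift {x : ℤ → Bool} (h : Legal x) (c : ℤ) : Legal (fun i => x (i + c)) := by
  intro k a
  obtain ⟨b, h1, h2, h3⟩ := h k (a + c)
  refine ⟨b - c, by linarith, by linarith, fun i hi1 hi2 => h3 _ (by linarith) (by linarith)⟩

theorem Legal.mono {x y : ℤ → Bool} (h : Legal x) (hxy : ∀ i, y i = true → x i = true) :
    Legal y := by
  intro k a
  obtain ⟨b, h1, h2, h3⟩ := h k a
  refine ⟨b, h1, h2, fun i hi1 hi2 => ?_⟩
  have := h3 i hi1 hi2
  by_contra hy
  rw [Bool.not_eq_false] at hy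
  rw [hxy i hy] at this
  exact absurd this (by decide)

/-- The restriction of `y` to the block `[s, s + 4 ^ K)` is a block of a legal sequence. -/
def Good (y : ℕ → Bool) (K s : ℕ) : Prop :=
  ∃ x : ℤ → Bool, Legal x ∧ ∀ i : ℕ, s ≤ i → i < s + 4 ^ K → x i = y i

/-- The start of the cell of size `4 ^ K` containing `i`. -/
def cs (K i : ℕ) : ℕ := 4 ^ K * (i / 4 ^ K)

open Classical in
/-- The glued sequence. -/
noncomputable def glue (y : ℕ → Bool) (κ : ℕ → ℕ) (i : ℤ) : Bool :=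
  decide (∃ n : ℕ, (n : ℤ) = i ∧ y n = true ∧ Good y (κ n) (cs (κ n) n) ∧
    ∀ k, κ n ≤ k → n % 4 ^ k + k < 4 ^ k)

theorem glue_eq_true {y : ℕ → Bool} {κ : ℕ → ℕ} {i : ℤ} :
    glue y κ i = true ↔ ∃ n : ℕ, (n : ℤ) = i ∧ y n = true ∧ Good y (κ n) (cs (κ n) n) ∧
    ∀ k, κ n ≤ k → n % 4 ^ k + k < 4 ^ k := by
  simp [glue]

theorem glue_nat {y : ℕ → Bool} {κ : ℕ → ℕ} {n : ℕ} :
    glue y κ n = true ↔ y n = true ∧ Good y (κ n) (cs (κ n) n) ∧
    ∀ k, κ n ≤ k → n % 4 ^ k + k < 4 ^ k := by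
  rw [glue_eq_true]
  constructor
  · rintro ⟨m, hm, h⟩
    obtain rfl : m = n := by exact_mod_cast hm
    exact h
  · intro h
    exact ⟨n, rfl, h⟩

theorem glue_false_of_not {y : ℕ → Bool} {κ : ℕ → ℕ} {i : ℤ} (h : glue y κ i ≠ true) :
    glue y κ i = false := by
  simpa using h

theorem glue_neg {y : ℕ → Bool} {κ : ℕ → ℕ} {i : ℤ} (hi : i < 0) : glue y κ i = false := by
  apply glue_false_of_not
  rw [Ne, glue_eq_true]
  rintro ⟨n, hn, -⟩
  omega

theorem cs_le (K i : ℕ) : cs K i ≤ i := Nat.mul_div_le i (4 ^ K)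

theorem lt_cs_add (K i : ℕ) : i < cs K i + 4 ^ K := by
  have h0 : 0 < 4 ^ K := by positivity
  have := Nat.lt_mul_div_succ i h0
  rw [mul_add, mul_one] at this
  exact this

theorem sub_cs (K i : ℕ) : i % 4 ^ K = i - cs K i := by
  have := Nat.div_add_mod i (4 ^ K)
  rw [cs]
  omega

/-- Zero if the residue is in the last part of the cell. -/
theorem glue_tail {y : ℕ → Bool} {κ : ℕ → ℕ} {n k s : ℕ} (hk : κ n ≤ k) (hs : 4 ^ k ∣ s)
    (h1 : s + 4 ^ k ≤ n + k) (h2 : n < s + 4 ^ k) : glue y κ n = false := by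
  apply glue_false_of_not
  rw [Ne, glue_nat]
  rintro ⟨-, -, h⟩
  have h3 := h k hk
  obtain ⟨q, rfl⟩ := hs
  have h4 : 4 ^ k * q ≤ n := by
    have := le_four_pow k
    omega
  have h5 : n % 4 ^ k = n - 4 ^ k * q := by
    have h6 : n = (n - 4 ^ k * q) + 4 ^ k * q := by omega
    conv_lhs => rw [h6]
    rw [Nat.add_mul_mod_self_left, Nat.mod_eq_of_lt (by omega)]
  omega

/-- The properties of the level function. -/
structure IsLevel (κ : ℕ → ℕ) : Prop where
  mono : Monotone κ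
  step : ∀ i, κ (i + 1) ≤ κ i + 1
  cell : ∀ i j, i / 4 ^ κ i = j / 4 ^ κ i → κ j = κ i

theorem IsLevel.const (K : ℕ) : IsLevel (fun _ => K) :=
  ⟨fun _ _ _ => le_rfl, fun _ => Nat.le_succ _, fun _ _ _ => rfl⟩

/-- The argument with one legal block. -/
theorem run_of_block {y : ℕ → Bool} {κ : ℕ → ℕ} (k : ℕ) (a : ℤ) (K β : ℕ)
    (hβ : ∀ n : ℕ, β ≤ n → n < β + 4 ^ K → κ n = K ∧ cs K n = β)
    (hW : ∀ i : ℤ, a ≤ i → i < a + 2 * 4 ^ k → glue y κ i = true →
      (β : ℤ) ≤ i ∧ i < β + 4 ^ K) :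
    ∃ b : ℤ, a ≤ b ∧ b + k ≤ a + 2 * 4 ^ k ∧
      ∀ i : ℤ, b ≤ i → i < b + k → glue y κ i = false := by
  by_cases hG : Good y K β
  · obtain ⟨x, hx, hxy⟩ := hG
    obtain ⟨b, h1, h2, h3⟩ := hx k a
    refine ⟨b, h1, h2, fun i hi1 hi2 => ?_⟩
    apply glue_false_of_not
    intro h
    obtain ⟨h4, h5⟩ := hW i (by linarith) (by linarith) h
    obtain ⟨n, rfl, hy, -, -⟩ := glue_eq_true.1 h
    have h6 := hxy n (by exact_mod_cast h4) (by exact_mod_cast h5)
    have h7 := h3 n hi1 hi2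
    rw [h6, hy] at h7
    exact absurd h7 (by decide)
  · refine ⟨a, le_rfl, ?_, fun i hi1 hi2 => ?_⟩
    · have := le_four_pow k
      have : (k : ℤ) ≤ 4 ^ k := by exact_mod_cast this
      have h4 : (0 : ℤ) < 4 ^ k := by positivity
      linarith
    · apply glue_false_of_not
      intro h
      have hk : (k : ℤ) ≤ 4 ^ k := by exact_mod_cast le_four_pow k
      have h40 : (0 : ℤ) < 4 ^ k := by positivity
      obtain ⟨h4, h5⟩ := hW i hi1 (by linarith) h
      obtain ⟨n, rfl, -, hg, -⟩ := glue_eq_true.1 h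
      obtain ⟨h6, h7⟩ := hβ n (by exact_mod_cast h4) (by exact_mod_cast h5)
      rw [h6, h7] at hg
      exact hG hg

theorem glue_legal {κ : ℕ → ℕ} (hκ : IsLevel κ) (y : ℕ → Bool) : Legal (glue y κ) := by
  intro k a
  have hk4 : k ≤ 4 ^ k := le_four_pow k
  have hk4' : (k : ℤ) ≤ 4 ^ k := by exact_mod_cast hk4
  have h40 : (0 : ℤ) < 4 ^ k := by positivity
  obtain ⟨q, hq1, hq2⟩ : ∃ q : ℤ, a ≤ q * 4 ^ k ∧ q * 4 ^ k < a + 4 ^ k := by
    refine ⟨(a + 4 ^ k - 1) / 4 ^ k, ?_, ?_⟩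
    · have := Int.lt_ediv_add_one_mul_self (a + 4 ^ k - 1) h40
      linarith
    · have := Int.ediv_mul_le (a + 4 ^ k - 1) h40.ne'
      linarith
  rcases lt_or_ge q 0 with hq0 | hq0
  · -- negative cell
    refine ⟨q * 4 ^ k, hq1, by linarith, fun i hi1 hi2 => glue_neg ?_⟩
    nlinarith
  obtain ⟨q, rfl⟩ := Int.eq_ofNat_of_zero_le hq0
  set s : ℕ := 4 ^ k * q with hs
  have hsZ : ((s : ℕ) : ℤ) = (q : ℤ) * 4 ^ k := by rw [hs]; push_cast; ring
  rw [← hsZ] at hq1 hq2
  have hcellk : ∀ n : ℕ, s ≤ n → n < s + 4 ^ k → n / 4 ^ k = q := by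
    intro n h1 h2
    rw [Nat.div_eq_iff (by positivity)]
    rw [hs] at h1 h2
    constructor
    · rw [mul_comm]; omega
    · rw [mul_comm q]; omega
  have h40n : 0 < 4 ^ k := by positivity
  rcases lt_or_ge (κ s) k with hlev | hlev
  · -- low level
    refine ⟨s + 4 ^ k - k, by linarith, by linarith, fun i hi1 hi2 => ?_⟩
    obtain ⟨n, rfl⟩ : ∃ n : ℕ, (n : ℤ) = i := ⟨i.toNat, Int.toNat_of_nonneg (by
      have : (0 : ℤ) ≤ s := by positivity
      linarith)⟩
    have hn1 : s + 4 ^ k ≤ n + k := by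
      have : (s : ℤ) + 4 ^ k ≤ n + k := by linarith
      exact_mod_cast this
    have hn2 : n < s + 4 ^ k := by
      have : (n : ℤ) < s + 4 ^ k := by linarith
      exact_mod_cast this
    have hlev' : κ n ≤ k := by
      by_contra hcon
      push Not at hcon
      have h1 : n / 4 ^ κ n = s / 4 ^ κ n := by
        obtain ⟨d, hd⟩ := Nat.exists_eq_add_of_le hcon.le
        rw [hd, pow_add, ← Nat.div_div_eq_div_mul, ← Nat.div_div_eq_div_mul,
          hcellk n (by omega) hn2, hcellk s le_rfl (by omega)]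
      have h2 := hκ.cell n s h1
      omega
    exact glue_tail hlev' (Dvd.intro _ hs.symm) hn1 hn2
  -- high level
  set K := κ s with hK
  set β := cs K s with hβ
  have hβs : β ≤ s := cs_le K s
  have hβd : 4 ^ K ∣ β := Dvd.intro _ rfl
  have hkK : 4 ^ k ∣ 4 ^ K := pow_dvd_pow 4 hlev
  have hβd' : 4 ^ k ∣ β := hkK.trans hβd
  have hsd : 4 ^ k ∣ s := Dvd.intro _ hs.symm
  have hend : s + 4 ^ k ≤ β + 4 ^ K := by
    have h1 : s < β + 4 ^ K := lt_cs_add K s
    obtain ⟨u, hu⟩ := (Nat.dvd_add hβd' hkK)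
    obtain ⟨v, hv⟩ := hsd
    rw [hu, hv] at h1 ⊢
    have h2 : v < u := lt_of_mul_lt_mul_left h1 (Nat.zero_le _)
    calc 4 ^ k * v + 4 ^ k = 4 ^ k * (v + 1) := by ring
      _ ≤ 4 ^ k * u := Nat.mul_le_mul_left _ h2
  have hcellK : ∀ n : ℕ, β ≤ n → n < β + 4 ^ K → κ n = K ∧ cs K n = β := by
    intro n h1 h2
    have h3 : n / 4 ^ K = s / 4 ^ K := by
      rw [Nat.div_eq_iff (by positivity)]
      have : β = 4 ^ K * (s / 4 ^ K) := rfl
      rw [mul_comm (s / 4 ^ K), ← this]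
      have : 0 < 4 ^ K := by positivity
      constructor <;> omega
    refine ⟨hκ.cell s n (by rw [← hK]; exact h3.symm), ?_⟩
    rw [cs, h3]
    rfl
  have hKK : K ≤ 4 ^ K := le_four_pow K
  have htail : ∀ i : ℤ, (β : ℤ) + 4 ^ K - K ≤ i → i < β + 4 ^ K → glue y κ i = false := by
    intro i h1 h2
    obtain ⟨n, rfl⟩ : ∃ n : ℕ, (n : ℤ) = i := ⟨i.toNat, Int.toNat_of_nonneg (by
      have : (0 : ℤ) ≤ β := by positivity
      have : (K : ℤ) ≤ 4 ^ K := by exact_mod_cast hKK
      linarith)⟩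
    have hn1 : β + 4 ^ K ≤ n + K := by
      have : (β : ℤ) + 4 ^ K ≤ n + K := by linarith
      exact_mod_cast this
    have hn2 : n < β + 4 ^ K := by exact_mod_cast h2
    exact glue_tail (hcellK n (by omega) hn2).1.le hβd hn1 hn2
  have hKZ : (K : ℤ) ≤ 4 ^ K := by exact_mod_cast hKK
  have hkKZ : (k : ℤ) ≤ K := by exact_mod_cast hlev
  have hendZ : (s : ℤ) + 4 ^ k ≤ β + 4 ^ K := by exact_mod_cast hend
  have hβsZ : (β : ℤ) ≤ s := by exact_mod_cast hβs
  rcases le_or_gt (β : ℤ) a with hβa | hβa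
  · rcases le_or_gt (a + 2 * 4 ^ k) ((β : ℤ) + 4 ^ K) with hin | hout
    · exact run_of_block k a K β hcellK fun i hi1 hi2 _ => ⟨by linarith, by linarith⟩
    · rcases le_total a ((β : ℤ) + 4 ^ K - K) with h1 | h1
      · exact ⟨(β : ℤ) + 4 ^ K - K, h1, by linarith, fun i hi1 hi2 => htail i hi1 (by linarith)⟩
      · exact ⟨a, le_rfl, by linarith, fun i hi1 hi2 => htail i (by linarith) (by linarith)⟩
  · have hsβ : s = β := by
      obtain ⟨u, hu⟩ := hβd'
      obtain ⟨v, hv⟩ := hsd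
      have h1 : (s : ℤ) < β + 4 ^ k := by linarith
      have h2 : s < β + 4 ^ k := by exact_mod_cast h1
      rw [hu, hv] at h2
      have h3 : 4 ^ k * v < 4 ^ k * (u + 1) := by linarith
      have h4 : v < u + 1 := lt_of_mul_lt_mul_left h3 (Nat.zero_le _)
      have h5 : v ≤ u := by omega
      apply le_antisymm _ hβs
      rw [hu, hv]
      exact Nat.mul_le_mul_left _ h5
    rcases le_or_gt ((β : ℤ) + 4 ^ K) (a + 2 * 4 ^ k) with hin | hout
    · exact ⟨(β : ℤ) + 4 ^ K - K, by linarith, by linarith,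
        fun i hi1 hi2 => htail i hi1 (by linarith)⟩
    · rcases Nat.eq_zero_or_pos β with h0 | hpos
      · refine run_of_block k a K β hcellK fun i hi1 hi2 hi3 => ⟨?_, by linarith⟩
        by_contra hcon
        rw [glue_neg (by rw [h0] at hcon; push_cast at hcon; linarith)] at hi3
        exact absurd hi3 (by decide)
      · have hkK' : k < K := by
          by_contra hcon
          have h1 : K = k := by omega
          rw [hsβ] at hq2
          rw [h1] at hout
          linarith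
        set K₀ := κ (β - 1) with hK₀
        have hK₀1 : K ≤ K₀ + 1 := by
          have h1 := hκ.step (β - 1)
          rw [Nat.sub_add_cancel hpos] at h1
          have h2 := (hcellK β le_rfl (Nat.lt_add_of_pos_right (by positivity))).1
          omega
        have hK₀2 : K₀ ≤ K := by
          have h1 := hκ.mono (Nat.sub_le β 1)
          have h2 := (hcellK β le_rfl (Nat.lt_add_of_pos_right (by positivity))).1
          omega
        have hkK₀ : k ≤ K₀ := by omega
        have hd₀ : 4 ^ K₀ ∣ β := (pow_dvd_pow 4 hK₀2).trans hβd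
        have hle₀ : 4 ^ K₀ ≤ β := Nat.le_of_dvd hpos hd₀
        have hd₀' : 4 ^ K₀ ∣ β - 4 ^ K₀ := Nat.dvd_sub hd₀ dvd_rfl
        have hK₀4 : K₀ ≤ 4 ^ K₀ := le_four_pow K₀
        have hcell₀ : ∀ n : ℕ, β - 4 ^ K₀ ≤ n → n < β → κ n = K₀ := by
          intro n h1 h2
          have hdiv : ∀ m : ℕ, β - 4 ^ K₀ ≤ m → m < β → m / 4 ^ K₀ = (β - 4 ^ K₀) / 4 ^ K₀ := by
            intro m h1 h2
            rw [Nat.div_eq_iff (by positivity), Nat.div_mul_cancel hd₀']
            constructor <;> omega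
          have h3 := hdiv (β - 1) (by
            have : 0 < 4 ^ K₀ := by positivity
            omega) (by omega)
          have h4 := hdiv n h1 h2
          exact hκ.cell (β - 1) n (by rw [← hK₀, h3, h4])
        have htail₀ : ∀ i : ℤ, (β : ℤ) - K₀ ≤ i → i < β → glue y κ i = false := by
          intro i h1 h2
          rcases lt_or_ge i 0 with hi | hi
          · exact glue_neg hi
          obtain ⟨n, rfl⟩ := Int.eq_ofNat_of_zero_le hi
          have hn1 : β ≤ n + K₀ := by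
            have : (β : ℤ) ≤ n + K₀ := by linarith
            exact_mod_cast this
          have hn2 : n < β := by exact_mod_cast h2
          exact glue_tail (hcell₀ n (by omega) hn2).le hd₀' (by omega) (by omega)
        have hkK₀Z : (k : ℤ) ≤ K₀ := by exact_mod_cast hkK₀
        rcases le_total a ((β : ℤ) - K₀) with h1 | h1
        · exact ⟨(β : ℤ) - K₀, h1, by linarith, fun i hi1 hi2 => htail₀ i hi1 (by linarith)⟩
        · refine run_of_block k a K β hcellK fun i hi1 hi2 hi3 => ⟨?_, by linarith⟩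
          by_contra hcon
          rw [htail₀ i (by linarith) (by linarith)] at hi3
          exact absurd hi3 (by decide)

end Pool.Agent.E8helper30.Prox
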