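import Mathlib
import Pool.Agent.E8helper30.Prox.Glue

/-!
# Counting functions of sets of naturals
-/

set_option autoImplicit false

namespace Pool.Agent.E8helper30.Prox

open Filter

open Classical in
/-- The number of elements of `S` below `n`. -/
noncomputable def cnt (S : Set ℕ) (n : ℕ) : ℕ := ((Finset.range n).filter (· ∈ S)).card

theorem mem_cset {S : Set ℕ} {n i : ℕ} {d : DecidablePred (· ∈ S)} :
    i ∈ @Finset.filter ℕ (· ∈ S) d (Finset.range n) ↔ i < n ∧ i ∈ S := by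
  rw [@Finset.mem_filter ℕ (· ∈ S) d, Finset.mem_range]

theorem cnt_mono {S T : Set ℕ} (h : S ⊆ T) (n : ℕ) : cnt S n ≤ cnt T n := by
  classical
  apply Finset.card_le_card
  intro i hi
  rw [Finset.mem_filter] at hi ⊢
  exact ⟨hi.1, h hi.2⟩

/-- Only elements below `n` matter. -/
theorem cnt_le_of {S T : Set ℕ} {n : ℕ} (h : ∀ i < n, i ∈ S → i ∈ T) : cnt S n ≤ cnt T n := by
  classical
  apply Finset.card_le_card
  intro i hi
  rw [Finset.mem_filter, Finset.mem_range] at hi ⊢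
  exact ⟨hi.1, h i hi.1 hi.2⟩

theorem cnt_union (S T : Set ℕ) (n : ℕ) : cnt (S ∪ T) n ≤ cnt S n + cnt T n := by
  classical
  refine le_trans (Finset.card_le_card ?_) (Finset.card_union_le _ _)
  intro i hi
  have hi := mem_cset.1 hi
  rw [Finset.mem_union]
  rcases hi.2 with h | h
  · exact Or.inl (mem_cset.2 ⟨hi.1, h⟩)
  · exact Or.inr (mem_cset.2 ⟨hi.1, h⟩)

theorem cnt_Iio (m n : ℕ) : cnt {i | i < m} n ≤ m := by
  classical
  refine le_trans (Finset.card_le_card (t := Finset.range m) ?_) (by simp)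
  intro i hi
  have hi := mem_cset.1 hi
  exact Finset.mem_range.2 hi.2

/-- The set of all points at distance at most `m` from `S`. -/
def thick (S : Set ℕ) (m : ℕ) : Set ℕ := {i | ∃ j ∈ S, j ≤ i + m ∧ i ≤ j + m}

theorem cnt_thick (S : Set ℕ) (m n : ℕ) : cnt (thick S m) n ≤ (2 * m + 1) * cnt S (n + m) := by
  classical
  have h1 : (Finset.range n).filter (· ∈ thick S m) ⊆
      ((Finset.range (n + m)).filter (· ∈ S)).biUnion fun j => Finset.Icc (j - m) (j + m) := by
    intro i hi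
    rw [Finset.mem_filter, Finset.mem_range] at hi
    obtain ⟨hi, j, hj, h1, h2⟩ := hi
    rw [Finset.mem_biUnion]
    refine ⟨j, ?_, ?_⟩
    · rw [Finset.mem_filter, Finset.mem_range]
      exact ⟨by omega, hj⟩
    · rw [Finset.mem_Icc]
      omega
  refine (Finset.card_le_card h1).trans (Finset.card_biUnion_le.trans ?_)
  rw [cnt, mul_comm, ← smul_eq_mul]
  apply Finset.sum_le_card_nsmul
  intro j _
  rw [Nat.card_Icc]
  omega

/-- Upper density at most `η` in the strong sense. -/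
def UB (S : Set ℕ) (η : ℝ) : Prop := ∀ᶠ n : ℕ in atTop, (cnt S n : ℝ) ≤ η * n

theorem UB.mono {S T : Set ℕ} {η θ : ℝ} (h : UB T η) (hS : S ⊆ T) (hη : η ≤ θ) : UB S θ := by
  filter_upwards [h] with n hn
  have h1 : (cnt S n : ℝ) ≤ cnt T n := by exact_mod_cast cnt_mono hS n
  have h2 : η * n ≤ θ * n := mul_le_mul_of_nonneg_right hη (Nat.cast_nonneg n)
  linarith

theorem UB.union {S T : Set ℕ} {η θ : ℝ} (hS : UB S η) (hT : UB T θ) : UB (S ∪ T) (η + θ) := by
  filter_upwards [hS, hT] with n h1 h2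
  have h3 : (cnt (S ∪ T) n : ℝ) ≤ cnt S n + cnt T n := by exact_mod_cast cnt_union S T n
  rw [add_mul]
  linarith

theorem UB.thick {S : Set ℕ} {η : ℝ} (hS : UB S η) (m : ℕ) :
    UB (thick S m) ((2 * m + 1) * (2 * η)) := by
  have h1 : Tendsto (fun n : ℕ => n + m) atTop atTop := tendsto_add_atTop_nat m
  filter_upwards [h1.eventually hS, eventually_ge_atTop (m + 1)] with n hn hmn
  have h2 : (cnt (Prox.thick S m) n : ℝ) ≤ (2 * m + 1) * cnt S (n + m) := by
    exact_mod_cast cnt_thick S m n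
  have hη : 0 ≤ η := by
    by_contra hcon
    push Not at hcon
    have h3 : (0 : ℝ) < ((n + m : ℕ) : ℝ) := by
      have : 0 < n + m := by omega
      exact_mod_cast this
    have h4 : (0 : ℝ) ≤ cnt S (n + m) := Nat.cast_nonneg _
    nlinarith
  have h3 : ((n + m : ℕ) : ℝ) ≤ 2 * n := by
    have : n + m ≤ 2 * n := by omega
    exact_mod_cast this
  have h4 : (0 : ℝ) ≤ 2 * m + 1 := by positivity
  calc (cnt (Prox.thick S m) n : ℝ) ≤ (2 * m + 1) * cnt S (n + m) := h2
    _ ≤ (2 * m + 1) * (η * ((n + m : ℕ) : ℝ)) := mul_le_mul_of_nonneg_left hn h4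
    _ ≤ (2 * m + 1) * (η * (2 * n)) :=
        mul_le_mul_of_nonneg_left (mul_le_mul_of_nonneg_left h3 hη) h4
    _ = (2 * m + 1) * (2 * η) * n := by ring

theorem UB.Iio (m : ℕ) {η : ℝ} (hη : 0 < η) : UB {i | i < m} η := by
  obtain ⟨N, hN⟩ := exists_nat_gt ((m : ℝ) / η)
  filter_upwards [eventually_ge_atTop N] with n hn
  have h1 : (cnt {i | i < m} n : ℝ) ≤ m := by exact_mod_cast cnt_Iio m n
  have h2 : (N : ℝ) ≤ n := by exact_mod_cast hn
  have h3 : (m : ℝ) / η < n := lt_of_lt_of_le hN h2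
  rw [div_lt_iff₀ hη] at h3
  linarith

/-- Markov inequality. -/
theorem cnt_le_sum {S : Set ℕ} {g : ℕ → ℝ} {δ : ℝ} (hg : ∀ i, 0 ≤ g i)
    (hS : ∀ i ∈ S, δ ≤ g i) (n : ℕ) : δ * cnt S n ≤ ∑ i ∈ Finset.range n, g i := by
  classical
  calc δ * cnt S n = ∑ i ∈ (Finset.range n).filter (· ∈ S), δ := by
        rw [Finset.sum_const, nsmul_eq_mul, cnt, mul_comm]
    _ ≤ ∑ i ∈ (Finset.range n).filter (· ∈ S), g i := Finset.sum_le_sum fun i hi =>
        hS i (Finset.mem_filter.1 hi).2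
    _ ≤ ∑ i ∈ Finset.range n, g i :=
        Finset.sum_le_sum_of_subset_of_nonneg (Finset.filter_subset _ _) fun i _ _ => hg i

/-- The tails of the cells of size `4 ^ k`. -/
def tail (k : ℕ) : Set ℕ := {n | 4 ^ k ≤ n % 4 ^ k + k}

theorem two_mul_le_four_pow (k : ℕ) : 2 * k ≤ 4 ^ k := by
  induction k with
  | zero => norm_num
  | succ k ih => rw [pow_succ]; have : 0 < 4 ^ k := by positivity
                 omega

theorem cnt_tail (k n : ℕ) : (cnt (tail k) n : ℝ) ≤ 2 * k / 4 ^ k * n := by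
  classical
  have h40 : 0 < 4 ^ k := by positivity
  have h40' : (0 : ℝ) < 4 ^ k := by positivity
  have h2k := two_mul_le_four_pow k
  -- each residue class
  have h1 : (Finset.range n).filter (· ∈ tail k) ⊆
      (Finset.Ico (4 ^ k - k) (4 ^ k)).biUnion fun v =>
        (Finset.range n).filter (· ≡ v [MOD 4 ^ k]) := by
    intro i hi
    rw [Finset.mem_filter] at hi
    obtain ⟨hi, hi2⟩ := hi
    rw [Finset.mem_biUnion]
    refine ⟨i % 4 ^ k, ?_, ?_⟩
    · rw [Finset.mem_Ico]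
      have := Nat.mod_lt i h40
      have h3 : 4 ^ k ≤ i % 4 ^ k + k := hi2
      omega
    · rw [Finset.mem_filter]
      exact ⟨hi, (Nat.mod_modEq i _).symm⟩
  have h2 : ∀ v ∈ Finset.Ico (4 ^ k - k) (4 ^ k),
      (((Finset.range n).filter (· ≡ v [MOD 4 ^ k])).card : ℝ) ≤ 2 / 4 ^ k * n := by
    intro v hv
    rw [Finset.mem_Ico] at hv
    rw [← Nat.count_eq_card_filter_range, Nat.count_modEq_card _ h40]
    have hvmod : v % 4 ^ k = v := Nat.mod_eq_of_lt hv.2
    rw [hvmod]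
    have hn := Nat.div_add_mod n (4 ^ k)
    have hn' : ((n : ℕ) : ℝ) = 4 ^ k * ((n / 4 ^ k : ℕ) : ℝ) + ((n % 4 ^ k : ℕ) : ℝ) := by
      exact_mod_cast hn.symm
    have hnn : (0 : ℝ) ≤ ((n % 4 ^ k : ℕ) : ℝ) := Nat.cast_nonneg _
    rw [div_mul_eq_mul_div, le_div_iff₀ h40']
    split_ifs with hif
    · rcases Nat.eq_zero_or_pos (n / 4 ^ k) with h0 | h0
      · rw [h0]
        have h5 : 4 ^ k ≤ 2 * n := by
          have : n % 4 ^ k ≤ n := Nat.mod_le _ _
          omega
        have h6 : (4 : ℝ) ^ k ≤ 2 * n := by exact_mod_cast h5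
        push_cast
        linarith
      · have h7 : (1 : ℝ) ≤ ((n / 4 ^ k : ℕ) : ℝ) := by exact_mod_cast h0
        push_cast at h7 hn' ⊢
        nlinarith
    · push_cast at hn' ⊢
      nlinarith [Nat.cast_nonneg (α := ℝ) n]
  calc (cnt (tail k) n : ℝ) ≤ (((Finset.Ico (4 ^ k - k) (4 ^ k)).biUnion fun v =>
        (Finset.range n).filter (· ≡ v [MOD 4 ^ k])).card : ℝ) := by
        exact_mod_cast Finset.card_le_card h1
    _ ≤ ∑ v ∈ Finset.Ico (4 ^ k - k) (4 ^ k),
        (((Finset.range n).filter (· ≡ v [MOD 4 ^ k])).card : ℝ) := by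
        exact_mod_cast Finset.card_biUnion_le
    _ ≤ ∑ v ∈ Finset.Ico (4 ^ k - k) (4 ^ k), 2 / 4 ^ k * (n : ℝ) := Finset.sum_le_sum h2
    _ = 2 * k / 4 ^ k * n := by
        rw [Finset.sum_const, Nat.card_Ico, nsmul_eq_mul, Nat.sub_sub_self (le_four_pow k)]
        ring

/-- All the tails of level at least `κ n`. -/
def tails (κ : ℕ → ℕ) : Set ℕ := {n | ∃ k, κ n ≤ k ∧ n ∈ tail k}

theorem le_two_pow' (k : ℕ) : (k : ℝ) ≤ 2 ^ k := by exact_mod_cast (Nat.lt_two_pow_self).le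

theorem cnt_tails_const (K n : ℕ) : (cnt (tails fun _ => K) n : ℝ) ≤ 4 / 2 ^ K * n := by
  classical
  have h1 : (Finset.range n).filter (· ∈ tails fun _ => K) ⊆
      (Finset.Ico K (K + (n + 1))).biUnion fun k => (Finset.range n).filter (· ∈ tail k) := by
    intro i hi
    rw [Finset.mem_filter, Finset.mem_range] at hi
    obtain ⟨hi, k, hk, hk2⟩ := hi
    rw [Finset.mem_biUnion]
    refine ⟨k, ?_, ?_⟩
    · rw [Finset.mem_Ico]
      refine ⟨hk, ?_⟩
      have h2 : 4 ^ k ≤ i % 4 ^ k + k := hk2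
      have h3 : i % 4 ^ k ≤ i := Nat.mod_le _ _
      have h4 := two_mul_le_four_pow k
      omega
    · rw [Finset.mem_filter, Finset.mem_range]
      exact ⟨hi, hk2⟩
  calc (cnt (tails fun _ => K) n : ℝ) ≤ (((Finset.Ico K (K + (n + 1))).biUnion fun k =>
        (Finset.range n).filter (· ∈ tail k)).card : ℝ) := by
        exact_mod_cast Finset.card_le_card h1
    _ ≤ ∑ k ∈ Finset.Ico K (K + (n + 1)), (cnt (tail k) n : ℝ) := by
        exact_mod_cast Finset.card_biUnion_le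
    _ ≤ ∑ k ∈ Finset.Ico K (K + (n + 1)), 2 * (1 / 2 : ℝ) ^ k * n := by
        apply Finset.sum_le_sum
        intro k _
        refine (cnt_tail k n).trans ?_
        apply mul_le_mul_of_nonneg_right _ (Nat.cast_nonneg n)
        rw [div_le_iff₀ (by positivity)]
        have h5 : (4 : ℝ) ^ k = 2 ^ k * 2 ^ k := by rw [← mul_pow]; norm_num
        rw [h5, one_div, inv_pow]
        have h6 : (0 : ℝ) < 2 ^ k := by positivity
        have h7 : 2 * ((2 : ℝ) ^ k)⁻¹ * (2 ^ k * 2 ^ k) = 2 * 2 ^ k := by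
          field_simp
        rw [h7]
        have := le_two_pow' k
        linarith
    _ = (∑ k ∈ Finset.range (n + 1), (1 / 2 : ℝ) ^ k) * (2 * (1 / 2 : ℝ) ^ K * n) := by
        rw [Finset.sum_Ico_eq_sum_range, Finset.sum_mul]
        rw [Nat.add_sub_cancel_left]
        refine Finset.sum_congr rfl fun k _ => ?_
        rw [pow_add]
        ring
    _ ≤ 2 * (2 * (1 / 2 : ℝ) ^ K * n) := by
        apply mul_le_mul_of_nonneg_right _ (by positivity)
        exact sum_geometric_two_le _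
    _ = 4 / 2 ^ K * n := by
        rw [one_div, inv_pow]
        ring

end Pool.Agent.E8helper30.Prox
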