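import Mathlib
import Pool.Agent.E8helper30.Prox.Glue

/-!
# Sequences with prescribed phases
-/

set_option autoImplicit false

namespace Pool.Agent.E8helper30.Prox

open MeasureTheory

instance neZeroPow (k : ℕ) : NeZero (4 ^ k) := ⟨by positivity⟩

/-- The space of phases. -/
abbrev Om : Type := ∀ k : ℕ, ZMod (4 ^ k)

/-- The pattern and the tails. -/
def PH (x : ℤ → Bool) (m K L : ℕ) (u : Om) (i : ℤ) : Prop :=
  (((i : ZMod (4 ^ K)) + u K).val ≤ 2 * m ∧ x (((i : ZMod (4 ^ K)) + u K).val - m) = true) ∧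
    ∀ k, L < k → ((i : ZMod (4 ^ k)) + u k).val + k < 4 ^ k

open Classical in
/-- The sequence with phases `u`. -/
noncomputable def phi (x : ℤ → Bool) (m K L : ℕ) (u : Om) (i : ℤ) : Bool :=
  decide (PH x m K L u i)

theorem phi_eq_true {x : ℤ → Bool} {m K L : ℕ} {u : Om} {i : ℤ} :
    phi x m K L u i = true ↔ PH x m K L u i := by
  simp [phi]

theorem phi_false_of_not {x : ℤ → Bool} {m K L : ℕ} {u : Om} {i : ℤ}
    (h : ¬ PH x m K L u i) : phi x m K L u i = false := by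
  simpa [phi] using h

theorem phi_shift (x : ℤ → Bool) (m K L : ℕ) (u : Om) (i : ℤ) :
    phi x m K L (u + 1) i = phi x m K L u (i + 1) := by
  have h : ∀ k, (i : ZMod (4 ^ k)) + (u + 1) k = ((i + 1 : ℤ) : ZMod (4 ^ k)) + u k := by
    intro k
    rw [Pi.add_apply, Pi.one_apply]
    push_cast
    ring
  have h1 : PH x m K L (u + 1) i ↔ PH x m K L u (i + 1) := by
    simp only [PH, h]
  cases hb : phi x m K L u (i + 1) with
  | true =>
    rw [phi_eq_true] at hb ⊢
    exact h1.2 hb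
  | false =>
    apply phi_false_of_not
    intro h2
    rw [phi_eq_true.2 (h1.1 h2)] at hb
    exact absurd hb (by decide)

/-- The start of the cell. -/
theorem exists_start (k : ℕ) (v : ZMod (4 ^ k)) (a : ℤ) :
    ∃ b : ℤ, b ≤ a ∧ a < b + 4 ^ k ∧
      ∀ (q : ℤ) (r : ℕ), r < 4 ^ k → (((b + q * 4 ^ k + r : ℤ) : ZMod (4 ^ k)) + v).val = r := by
  refine ⟨a - (((a : ZMod (4 ^ k)) + v).val : ℕ), ?_, ?_, ?_⟩
  · have : (0 : ℤ) ≤ (((a : ZMod (4 ^ k)) + v).val : ℕ) := Nat.cast_nonneg _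
    linarith
  · have h1 := ZMod.val_lt ((a : ZMod (4 ^ k)) + v)
    have h2 : ((((a : ZMod (4 ^ k)) + v).val : ℕ) : ℤ) < 4 ^ k := by exact_mod_cast h1
    linarith
  · intro q r hr
    have h1 : (((a - (((a : ZMod (4 ^ k)) + v).val : ℕ)) + q * 4 ^ k + r : ℤ) : ZMod (4 ^ k)) + v
        = (r : ZMod (4 ^ k)) := by
      have h2 : ((4 : ZMod (4 ^ k)) ^ k) = 0 := by
        have := ZMod.natCast_self (4 ^ k)
        push_cast at this
        exact this
      push_cast
      rw [h2, ZMod.natCast_val, ZMod.cast_id]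
      ring
    rw [h1, ZMod.val_natCast, Nat.mod_eq_of_lt hr]

theorem phi_legal {x : ℤ → Bool} (hx : Legal x) {m K L : ℕ} (hKL : L + 2 * m + 1 ≤ 4 ^ K)
    (u : Om) : Legal (phi x m K L u) := by
  intro k a
  have hk4' : (k : ℤ) ≤ 4 ^ k := by exact_mod_cast le_four_pow k
  have h40 : (0 : ℤ) < 4 ^ k := by positivity
  rcases lt_or_ge L k with hk | hk
  · -- tails
    obtain ⟨b, h1, h2, h3⟩ := exists_start k (u k) a
    refine ⟨b + 1 * 4 ^ k + (4 ^ k - k), by linarith, by linarith, fun i hi1 hi2 => ?_⟩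
    apply phi_false_of_not
    rintro ⟨-, h4⟩
    have h5 := h4 k hk
    obtain ⟨r, hr⟩ : ∃ r : ℕ, (r : ℤ) = i - (b + 1 * 4 ^ k) :=
      ⟨(i - (b + 1 * 4 ^ k)).toNat, Int.toNat_of_nonneg (by linarith)⟩
    have h6 : r < 4 ^ k := by
      have : (r : ℤ) < 4 ^ k := by linarith
      exact_mod_cast this
    have h7 : 4 ^ k ≤ r + k := by
      have : (4 ^ k : ℤ) ≤ r + k := by linarith
      exact_mod_cast this
    have h8 : i = b + 1 * 4 ^ k + r := by linarith
    rw [h8, h3 1 r h6] at h5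
    omega
  · -- the pattern
    obtain ⟨b, h1, h2, h3⟩ := exists_start K (u K) a
    have hKLZ : (L : ℤ) + 2 * m + 1 ≤ 4 ^ K := by exact_mod_cast hKL
    have hkL : (k : ℤ) ≤ L := by exact_mod_cast hk
    have hm0 : (0 : ℤ) ≤ m := Nat.cast_nonneg m
    -- one cell
    have hcell : ∀ (q i : ℤ), b + q * 4 ^ K ≤ i → i < b + q * 4 ^ K + 4 ^ K →
        phi x m K L u i = true → i ≤ b + q * 4 ^ K + 2 * m ∧
          x (i + -(b + q * 4 ^ K + m)) = true := by
      intro q i hi1 hi2 hi3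
      rw [phi_eq_true] at hi3
      obtain ⟨⟨h4, h5⟩, -⟩ := hi3
      obtain ⟨r, hr⟩ : ∃ r : ℕ, (r : ℤ) = i - (b + q * 4 ^ K) :=
        ⟨(i - (b + q * 4 ^ K)).toNat, Int.toNat_of_nonneg (by linarith)⟩
      have h6 : r < 4 ^ K := by
        have : (r : ℤ) < 4 ^ K := by linarith
        exact_mod_cast this
      have h8 : i = b + q * 4 ^ K + r := by linarith
      rw [h8, h3 q r h6] at h4 h5
      have h9 : (r : ℤ) ≤ 2 * m := by exact_mod_cast h4
      refine ⟨by linarith, ?_⟩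
      rw [← h5]
      congr 1
      linarith
    have hone : ∀ q : ℤ, (∀ i, a ≤ i → i < a + 2 * 4 ^ k → phi x m K L u i = true →
        b + q * 4 ^ K ≤ i ∧ i < b + q * 4 ^ K + 4 ^ K) →
        ∃ b : ℤ, a ≤ b ∧ b + k ≤ a + 2 * 4 ^ k ∧
          ∀ i : ℤ, b ≤ i → i < b + k → phi x m K L u i = false := by
      intro q hq
      obtain ⟨d, hd1, hd2, hd3⟩ := (hx.shift (-(b + q * 4 ^ K + m))) k a
      refine ⟨d, hd1, hd2, fun i hi1 hi2 => ?_⟩
      by_contra hcon
      rw [Bool.not_eq_false] at hcon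
      obtain ⟨h4, h5⟩ := hq i (by linarith) (by linarith) hcon
      have h6 := (hcell q i h4 h5 hcon).2
      have h7 := hd3 i hi1 hi2
      simp only at h7
      rw [h6] at h7
      exact absurd h7 (by decide)
    have hrun : ∀ q : ℤ, ∀ i, b + q * 4 ^ K + 4 ^ K - L ≤ i → i < b + q * 4 ^ K + 4 ^ K →
        phi x m K L u i = false := by
      intro q i hi1 hi2
      by_contra hcon
      rw [Bool.not_eq_false] at hcon
      have := (hcell q i (by linarith) hi2 hcon).1
      linarith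
    rcases le_or_gt (a + 2 * 4 ^ k) (b + 4 ^ K) with hin | hout
    · exact hone 0 fun i hi1 hi2 _ => ⟨by linarith, by linarith⟩
    rcases le_or_gt a (b + 4 ^ K - L) with ha | ha
    · refine ⟨b + 0 * 4 ^ K + 4 ^ K - L, by linarith, ?_, fun i hi1 hi2 =>
        hrun 0 i hi1 (by linarith)⟩
      linarith
    rcases le_or_gt (a + 2 * 4 ^ k) (b + 1 * 4 ^ K + 4 ^ K) with hin2 | hout2
    · refine hone 1 fun i hi1 hi2 hi3 => ⟨?_, by linarith⟩
      by_contra hcon
      push Not at hcon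
      rw [hrun 0 i (by linarith) (by linarith)] at hi3
      exact absurd hi3 (by decide)
    · refine ⟨b + 1 * 4 ^ K + 4 ^ K - L, by linarith, by linarith, fun i hi1 hi2 =>
        hrun 1 i hi1 (by linarith)⟩

/-- The sequence with good phases contains the pattern at the origin. -/
theorem phi_pattern {x : ℤ → Bool} {m K L : ℕ} (hK : 2 * m + 1 ≤ 4 ^ K) {u : Om}
    (h1 : u K = (m : ZMod (4 ^ K)))
    (h2 : ∀ k, L < k → ∀ i : ℤ, -m ≤ i → i ≤ m → ((i : ZMod (4 ^ k)) + u k).val + k < 4 ^ k)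
    (i : ℤ) (hi1 : -m ≤ i) (hi2 : i ≤ m) : phi x m K L u i = x i := by
  obtain ⟨r, hr⟩ : ∃ r : ℕ, (r : ℤ) = i + m := ⟨(i + m).toNat, Int.toNat_of_nonneg (by linarith)⟩
  have h3 : ((i : ZMod (4 ^ K)) + u K).val = r := by
    have h4 : (i : ZMod (4 ^ K)) + u K = (r : ZMod (4 ^ K)) := by
      rw [h1]
      have : ((r : ℤ) : ZMod (4 ^ K)) = ((i + m : ℤ) : ZMod (4 ^ K)) := by rw [hr]
      push_cast at this
      exact this.symm
    rw [h4, ZMod.val_natCast, Nat.mod_eq_of_lt (by omega)]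
  have h5 : r ≤ 2 * m := by omega
  have h6 : (r : ℤ) - m = i := by linarith
  cases hb : x i with
  | true =>
    rw [phi_eq_true]
    refine ⟨?_, fun k hk => h2 k hk i hi1 hi2⟩
    rw [h3, h6]
    exact ⟨h5, hb⟩
  | false =>
    apply phi_false_of_not
    rintro ⟨⟨-, h7⟩, -⟩
    rw [h3, h6, hb] at h7
    exact absurd h7 (by decide)

theorem isClosed_coord (k : ℕ) (S : Set (ZMod (4 ^ k))) : IsClosed {u : Om | u k ∈ S} :=
  (isClosed_discrete S).preimage (continuous_apply k)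

theorem isClosed_phi (x : ℤ → Bool) (m K L : ℕ) (i : ℤ) :
    IsClosed {u : Om | phi x m K L u i = true} := by
  have h : {u : Om | phi x m K L u i = true} =
      {u : Om | u K ∈ {v : ZMod (4 ^ K) | ((i : ZMod (4 ^ K)) + v).val ≤ 2 * m ∧
        x (((i : ZMod (4 ^ K)) + v).val - m) = true}} ∩
      ⋂ k, ⋂ _ : L < k, {u : Om | u k ∈ {v : ZMod (4 ^ k) |
        ((i : ZMod (4 ^ k)) + v).val + k < 4 ^ k}} := by
    ext u
    simp only [Set.mem_inter_iff, Set.mem_iInter]
    exact phi_eq_true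
  rw [h]
  exact (isClosed_coord K _).inter (isClosed_iInter fun k => isClosed_iInter fun _ =>
    isClosed_coord k _)

end Pool.Agent.E8helper30.Prox
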