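import Mathlib
import Pool.Agent.E8helper30.Prox.Count

/-!
# Tracing pseudo-orbits by glued sequences
-/

set_option autoImplicit false

namespace Pool.Agent.E8helper30.Prox

open Filter Topology Uniformity

/-- A system whose points are coded by legal sequences. -/
structure Coding {Y : Type*} [TopologicalSpace Y] (f : Y → Y) (c : Y → ℤ → Bool) : Prop where
  cont : Continuous c
  inj : Function.Injective c
  legal : ∀ y, Legal (c y)
  surj : ∀ x, Legal x → ∃ y, c y = x
  shift : ∀ y i, c (f y) i = c y (i + 1)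

section

variable {Y : Type*} [MetricSpace Y] [CompactSpace Y] {f : Y → Y} {c : Y → ℤ → Bool}

theorem Coding.iterate (h : Coding f c) (n : ℕ) (y : Y) (i : ℤ) :
    c (f^[n] y) i = c y (i + n) := by
  induction n generalizing i with
  | zero => simp
  | succ n ih =>
    rw [Function.iterate_succ_apply', h.shift, ih]
    push_cast
    congr 1
    ring

/-- Close points agree on a window. -/
theorem Coding.close_agree (h : Coding f c) (m : ℕ) : ∃ δ > 0, ∀ y y' : Y, dist y y' < δ →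
    ∀ i : ℤ, -m ≤ i → i ≤ m → c y i = c y' i := by
  have h1 : ∀ i : ℤ, ∀ᶠ p : Y × Y in 𝓤 Y, c p.1 i = c p.2 i := by
    intro i
    have hc : Continuous fun y => c y i := (continuous_apply i).comp h.cont
    have hu : UniformContinuous fun y => c y i := CompactSpace.uniformContinuous_of_continuous hc
    have h2 : {p : Bool × Bool | p.1 = p.2} ∈ 𝓤 Bool := by
      have : (𝓤 Bool) = 𝓟 (SetRel.id) := DiscreteUniformity.eq_principal_setRelId Bool
      rw [this]
      intro p hp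
      exact hp
    exact hu h2
  have h2 : ∀ᶠ p : Y × Y in 𝓤 Y, ∀ i ∈ Finset.Icc (-(m : ℤ)) m, c p.1 i = c p.2 i :=
    (Finset.eventually_all _).2 fun i _ => h1 i
  obtain ⟨δ, hδ, h3⟩ := Metric.mem_uniformity_dist.1 h2
  exact ⟨δ, hδ, fun y y' hy i h4 h5 => h3 hy i (Finset.mem_Icc.2 ⟨h4, h5⟩)⟩

/-- Points which agree on a large window are close. -/
theorem Coding.agree_close (h : Coding f c) {ε : ℝ} (hε : 0 < ε) : ∃ m : ℕ, ∀ y y' : Y,
    (∀ i : ℤ, -m ≤ i → i ≤ m → c y i = c y' i) → dist y y' < ε := by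
  by_contra hcon
  push Not at hcon
  let t : ℕ → Set (Y × Y) := fun m =>
    {p | (∀ i : ℤ, -(m : ℤ) ≤ i → i ≤ m → c p.1 i = c p.2 i) ∧ ε ≤ dist p.1 p.2}
  have ht : ∀ m, IsClosed (t m) := by
    intro m
    have h1 : t m = (⋂ i : ℤ, ⋂ _ : -(m : ℤ) ≤ i, ⋂ _ : i ≤ m, {p : Y × Y | c p.1 i = c p.2 i}) ∩
        {p : Y × Y | ε ≤ dist p.1 p.2} := by
      ext p
      simp only [t, Set.mem_ofPred_eq, Set.mem_inter_iff, Set.mem_iInter]
    rw [h1]
    refine IsClosed.inter ?_ (isClosed_le continuous_const (continuous_fst.dist continuous_snd))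
    refine isClosed_iInter fun i => isClosed_iInter fun _ => isClosed_iInter fun _ => ?_
    exact isClosed_eq ((continuous_apply i).comp (h.cont.comp continuous_fst))
      ((continuous_apply i).comp (h.cont.comp continuous_snd))
  have hne : (⋂ m, t m).Nonempty := by
    apply IsCompact.nonempty_iInter_of_sequence_nonempty_isCompact_isClosed t
    · intro m p hp
      refine ⟨fun i h1 h2 => hp.1 i ?_ ?_, hp.2⟩
      · push_cast
        linarith
      · push_cast
        linarith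
    · intro m
      obtain ⟨y, y', h1, h2⟩ := hcon m
      exact ⟨(y, y'), h1, h2⟩
    · exact (ht 0).isCompact
    · exact ht
  obtain ⟨p, hp⟩ := hne
  rw [Set.mem_iInter] at hp
  have h1 : p.1 = p.2 := by
    apply h.inj
    funext i
    exact (hp i.natAbs).1 i (by omega) (by omega)
  have h2 := (hp 0).2
  rw [h1, dist_self] at h2
  linarith

/-- The set of jumps of a pseudo-orbit, on a window. -/
def Jump (c : Y → ℤ → Bool) (x : ℕ → Y) (M : ℕ) : Set ℕ :=
  {j | ∃ l : ℤ, -M ≤ l ∧ l ≤ M ∧ c (x j) (l + 1) ≠ c (x (j + 1)) l}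

theorem Jump.mono (x : ℕ → Y) {M M' : ℕ} (h : M ≤ M') : Jump c x M ⊆ Jump c x M' := by
  rintro j ⟨l, h1, h2, h3⟩
  have : (M : ℤ) ≤ M' := by exact_mod_cast h
  exact ⟨l, by linarith, by linarith, h3⟩

theorem propagate (x : ℕ → Y) {M : ℕ} (j t : ℕ) (l : ℤ) (h1 : -M ≤ l) (h2 : l + t ≤ M + 1)
    (h3 : ∀ s < t, j + s ∉ Jump c x M) : c (x j) (l + t) = c (x (j + t)) l := by
  induction t generalizing l with
  | zero => simp
  | succ t ih =>
    push_cast at h2
    have h4 := ih (l + 1) (by linarith) (by linarith) fun s hs => h3 s (by omega)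
    have h5 := h3 t (by omega)
    rw [Jump, Set.mem_ofPred_eq] at h5
    push Not at h5
    have h6 := h5 l h1 (by linarith [Nat.cast_nonneg (α := ℤ) t])
    rw [← add_assoc, ← h6, ← h4]
    congr 1
    push_cast
    ring

/-- The base sequence of a pseudo-orbit. -/
def base (c : Y → ℤ → Bool) (x : ℕ → Y) (n : ℕ) : Bool := c (x n) 0

theorem good_of_no_jump (h : Coding f c) (x : ℕ → Y) (K s : ℕ)
    (hJ : ∀ j, s ≤ j → j < s + 4 ^ K → j ∉ Jump c x (4 ^ K)) : Good (base c x) K s := by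
  refine ⟨fun i => c (x s) (i + -s), (h.legal (x s)).shift _, fun i h1 h2 => ?_⟩
  obtain ⟨t, rfl⟩ := Nat.exists_eq_add_of_le h1
  have h3 := propagate (c := c) x (M := 4 ^ K) s t 0 (by
      have : (0 : ℤ) ≤ ((4 ^ K : ℕ) : ℤ) := Nat.cast_nonneg _
      linarith) (by
      have : (t : ℤ) < ((4 ^ K : ℕ) : ℤ) := by exact_mod_cast (by omega : t < 4 ^ K)
      linarith) fun u hu => hJ _ (by omega) (by omega)
  rw [base, ← h3]
  simp only
  congr 1
  push_cast
  ring

/-- The errors caused by jumps. -/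
def err (c : Y → ℤ → Bool) (x : ℕ → Y) (κ : ℕ → ℕ) : Set ℕ :=
  {n | ∃ j ∈ Jump c x (4 ^ κ n), cs (κ n) n ≤ j ∧ j < cs (κ n) n + 4 ^ κ n}

theorem glue_eq_base (h : Coding f c) (x : ℕ → Y) (κ : ℕ → ℕ) {n : ℕ}
    (h1 : n ∉ err c x κ) (h2 : n ∉ tails κ) : glue (base c x) κ n = base c x n := by
  cases hb : base c x n with
  | false =>
    apply glue_false_of_not
    rw [Ne, glue_nat]
    rintro ⟨h3, -⟩
    rw [h3] at hb
    exact absurd hb (by decide)
  | true =>
    rw [glue_nat]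
    refine ⟨hb, good_of_no_jump h x _ _ fun j hj1 hj2 hj3 => h1 ⟨j, hj3, hj1, hj2⟩,
      fun k hk => ?_⟩
    by_contra hcon
    push Not at hcon
    exact h2 ⟨k, hk, hcon⟩

/-- The set of all times at which the tracing may fail on the window of size `m`. -/
def bad (c : Y → ℤ → Bool) (x : ℕ → Y) (κ : ℕ → ℕ) (m : ℕ) : Set ℕ :=
  thick (Jump c x m ∪ (err c x κ ∪ tails κ)) m ∪ {i | i < m}

theorem agree_of_not_bad (h : Coding f c) (x : ℕ → Y) (κ : ℕ → ℕ) (m : ℕ) {z : Y}
    (hz : c z = glue (base c x) κ) {i : ℕ} (hi : i ∉ bad c x κ m) (l : ℤ) (h1 : -m ≤ l)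
    (h2 : l ≤ m) : c (f^[i] z) l = c (x i) l := by
  rw [h.iterate, hz]
  have hi1 : m ≤ i := by
    by_contra hcon
    exact hi (Or.inr (by simpa using hcon))
  have hi2 : ∀ j, j ≤ i + m → i ≤ j + m → j ∉ Jump c x m ∧ j ∉ err c x κ ∧ j ∉ tails κ := by
    intro j hj1 hj2
    refine ⟨fun h3 => hi ?_, fun h3 => hi ?_, fun h3 => hi ?_⟩
    · exact Or.inl ⟨j, Or.inl h3, hj1, hj2⟩
    · exact Or.inl ⟨j, Or.inr (Or.inl h3), hj1, hj2⟩
    · exact Or.inl ⟨j, Or.inr (Or.inr h3), hj1, hj2⟩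
  obtain ⟨n, hn⟩ : ∃ n : ℕ, (n : ℤ) = l + i := ⟨(l + i).toNat, Int.toNat_of_nonneg (by omega)⟩
  rw [← hn]
  obtain ⟨h3, h4, h5⟩ := hi2 n (by omega) (by omega)
  rw [glue_eq_base h x κ h4 h5, base]
  rcases le_total 0 l with hl | hl
  · obtain ⟨t, rfl⟩ := Int.eq_ofNat_of_zero_le hl
    have hni : n = i + t := by omega
    have h6 := propagate (c := c) x (M := m) i t 0 (by omega) (by omega)
      fun s hs => (hi2 (i + s) (by omega) (by omega)).1
    rw [hni, ← h6, zero_add]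
  · obtain ⟨t, ht⟩ : ∃ t : ℕ, (t : ℤ) = -l := ⟨(-l).toNat, Int.toNat_of_nonneg (by omega)⟩
    have hni : i = n + t := by omega
    have h6 := propagate (c := c) x (M := m) n t (-t) (by omega) (by omega)
      fun s hs => (hi2 (n + s) (by omega) (by omega)).1
    rw [hni]
    have h7 : l = -(t : ℤ) := by omega
    rw [h7, ← h6]
    congr 1
    ring

/-- The basic estimate. -/
theorem sum_dist_le (h : Coding f c) (x : ℕ → Y) (κ : ℕ → ℕ) {ε D : ℝ} {m : ℕ} (hε : 0 ≤ ε)
    (hm : ∀ y y' : Y, (∀ i : ℤ, -m ≤ i → i ≤ m → c y i = c y' i) → dist y y' < ε)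
    (hD : ∀ y y' : Y, dist y y' ≤ D) {z : Y} (hz : c z = glue (base c x) κ) (n : ℕ) :
    ∑ i ∈ Finset.range n, dist (f^[i] z) (x i) ≤ ε * n + D * cnt (bad c x κ m) n := by
  classical
  rw [← Finset.sum_filter_add_sum_filter_not (Finset.range n) (· ∈ bad c x κ m), add_comm]
  apply add_le_add
  · calc ∑ i ∈ (Finset.range n).filter (· ∉ bad c x κ m), dist (f^[i] z) (x i)
        ≤ ∑ i ∈ (Finset.range n).filter (· ∉ bad c x κ m), ε := by
          apply Finset.sum_le_sum
          intro i hi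
          have hi := (mem_cset.1 hi).2
          exact (hm _ _ fun l h1 h2 => agree_of_not_bad h x κ m hz hi l h1 h2).le
      _ ≤ ∑ i ∈ Finset.range n, ε :=
          Finset.sum_le_sum_of_subset_of_nonneg (Finset.filter_subset _ _) fun _ _ _ => hε
      _ = ε * n := by rw [Finset.sum_const, Finset.card_range, nsmul_eq_mul, mul_comm]
  · calc ∑ i ∈ (Finset.range n).filter (· ∈ bad c x κ m), dist (f^[i] z) (x i)
        ≤ ∑ i ∈ (Finset.range n).filter (· ∈ bad c x κ m), D :=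
          Finset.sum_le_sum fun i _ => hD _ _
      _ = D * cnt (bad c x κ m) n := by
          rw [Finset.sum_const, nsmul_eq_mul, mul_comm, cnt]

theorem UB.bad {x : ℕ → Y} {κ : ℕ → ℕ} {m : ℕ} {η₁ η₂ η₃ η₄ : ℝ} (h1 : UB (Jump c x m) η₁)
    (h2 : UB (err c x κ) η₂) (h3 : UB (tails κ) η₃) (h4 : 0 < η₄) :
    UB (bad c x κ m) ((2 * m + 1) * (2 * (η₁ + (η₂ + η₃))) + η₄) :=
  ((h1.union (h2.union h3)).thick m).union (UB.Iio m h4)

/-- Jumps of a pseudo-orbit with small average. -/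
theorem UB_jump {x : ℕ → Y} {M : ℕ} {δ' δ : ℝ} (hδ' : 0 < δ')
    (hM : ∀ y y' : Y, dist y y' < δ' → ∀ i : ℤ, -M ≤ i → i ≤ M → c y i = c y' i)
    (h : Coding f c)
    (hx : ∀ᶠ n : ℕ in atTop, ∑ i ∈ Finset.range n, dist (f (x i)) (x (i + 1)) ≤ δ * n) :
    UB (Jump c x M) (δ / δ') := by
  filter_upwards [hx] with n hn
  have h1 : δ' * cnt (Jump c x M) n ≤ ∑ i ∈ Finset.range n, dist (f (x i)) (x (i + 1)) := by
    apply cnt_le_sum (fun i => dist_nonneg)
    rintro i ⟨l, h1, h2, h3⟩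
    by_contra hcon
    push Not at hcon
    have h4 := hM _ _ hcon l h1 h2
    rw [h.shift] at h4
    exact h3 h4
  rw [div_mul_eq_mul_div, le_div_iff₀ hδ']
  linarith

theorem err_const_subset (x : ℕ → Y) (K : ℕ) :
    err c x (fun _ => K) ⊆ thick (Jump c x (4 ^ K)) (4 ^ K) := by
  rintro n ⟨j, hj, h1, h2⟩
  refine ⟨j, hj, ?_, ?_⟩
  · have := cs_le K n
    simp only at h1 h2
    omega
  · have := lt_cs_add K n
    simp only at h1 h2
    omega

end

end Pool.Agent.E8helper30.Prox
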