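import Mathlib
import Pool.Agent.E8helper30.Prox.Phase
import Pool.Agent.E8helper30.Prox.Shadow

/-!
# An invariant measure of full support
-/

set_option autoImplicit false

namespace Pool.Agent.E8helper30.Prox

open MeasureTheory Filter Topology

open scoped ENNReal

theorem exists_translation_invariant : ∃ ν : Measure Om, IsProbabilityMeasure ν ∧
    ∀ v : Om, MeasurePreserving (fun u => u + v) ν ν := by
  refine ⟨Measure.addHaarMeasure ⊤, ⟨?_⟩, fun v => measurePreserving_add_right _ v⟩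
  have := Measure.addHaarMeasure_self (K₀ := (⊤ : TopologicalSpace.PositiveCompacts Om))
  simpa using this

theorem coord_eq {ν : Measure Om} (hν : ∀ v : Om, MeasurePreserving (fun u => u + v) ν ν)
    (k : ℕ) (a : ZMod (4 ^ k)) : ν {u | u k = a} = ν {u | u k = 0} := by
  have h1 := (hν (Function.update 0 k (-a))).measure_preimage
    (s := {u : Om | u k = 0}) ((isClosed_coord k {0}).measurableSet.nullMeasurableSet)
  rw [← h1]
  congr 1
  ext u
  simp only [Set.mem_ofPred_eq, Set.mem_preimage, Pi.add_apply, Function.update_self]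
  rw [← sub_eq_add_neg, sub_eq_zero]

theorem coord_measure {ν : Measure Om} [IsProbabilityMeasure ν]
    (hν : ∀ v : Om, MeasurePreserving (fun u => u + v) ν ν) (k : ℕ) :
    ν {u | u k = 0} = ((4 : ℝ≥0∞) ^ k)⁻¹ := by
  have h1 := sum_measure_preimage_singleton (μ := ν) (Finset.univ : Finset (ZMod (4 ^ k)))
    (f := fun u : Om => u k) (fun y _ => (isClosed_coord k {y}).measurableSet)
  have h2 : ∀ b : ZMod (4 ^ k), ν ((fun u : Om => u k) ⁻¹' {b}) = ν {u | u k = 0} :=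
    fun b => coord_eq hν k b
  simp only [h2] at h1
  rw [Finset.sum_const, Finset.card_univ, ZMod.card, Finset.coe_univ, Set.preimage_univ,
    measure_univ, nsmul_eq_mul] at h1
  push_cast at h1
  exact ENNReal.eq_inv_of_mul_eq_one_left (by rw [mul_comm]; exact h1)

theorem coord_le {ν : Measure Om} [IsProbabilityMeasure ν]
    (hν : ∀ v : Om, MeasurePreserving (fun u => u + v) ν ν) (k : ℕ) (S : Finset (ZMod (4 ^ k))) :
    ν {u | u k ∈ S} ≤ S.card * ((4 : ℝ≥0∞) ^ k)⁻¹ := by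
  have h1 : {u : Om | u k ∈ S} = ⋃ a ∈ S, {u | u k = a} := by
    ext u
    simp
  rw [h1]
  refine (measure_biUnion_finset_le _ _).trans ?_
  rw [Finset.sum_congr rfl fun a _ => (coord_eq hν k a).trans (coord_measure hν k),
    Finset.sum_const, nsmul_eq_mul]

/-- The set of phases for which a tail of level `k` meets `[-M, M]`. -/
def badPh (M k : ℕ) : Set Om :=
  {u | ∃ i : ℤ, -M ≤ i ∧ i ≤ M ∧ 4 ^ k ≤ ((i : ZMod (4 ^ k)) + u k).val + k}

theorem badPh_le {ν : Measure Om} [IsProbabilityMeasure ν]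
    (hν : ∀ v : Om, MeasurePreserving (fun u => u + v) ν ν) (M k : ℕ) :
    ν (badPh M k) ≤ ((2 * M + k + 1 : ℕ) : ℝ≥0∞) * ((4 : ℝ≥0∞) ^ k)⁻¹ := by
  classical
  set S : Finset (ZMod (4 ^ k)) := (Finset.Icc ((4 : ℤ) ^ k - k - M) (4 ^ k + M)).image
    (fun z : ℤ => (z : ZMod (4 ^ k))) with hS
  have h1 : badPh M k ⊆ {u | u k ∈ S} := by
    rintro u ⟨i, hi1, hi2, hi3⟩
    have h2 := ZMod.val_lt ((i : ZMod (4 ^ k)) + u k)
    set r := ((i : ZMod (4 ^ k)) + u k).val with hr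
    rw [Set.mem_ofPred_eq, hS]
    refine Finset.mem_image.2 ⟨(r : ℤ) - i, ?_, ?_⟩
    · rw [Finset.mem_Icc]
      have h3 : (4 : ℤ) ^ k ≤ r + k := by exact_mod_cast hi3
      have h4 : (r : ℤ) < 4 ^ k := by exact_mod_cast h2
      constructor <;> linarith
    · push_cast
      rw [hr, ZMod.natCast_val, ZMod.cast_id]
      ring
  refine (measure_mono h1).trans ((coord_le hν k S).trans ?_)
  have h5 : S.card ≤ 2 * M + k + 1 := by
    refine Finset.card_image_le.trans ?_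
    rw [Int.card_Icc]
    omega
  gcongr

theorem level_arith {m K j : ℕ} (hK : 2 ≤ K) (hm : 2 * m + 1 ≤ 2 * 4 ^ K) :
    (2 * (m + 4 ^ K) + (2 * K + 1 + j) + 1) * 2 ^ (j + 2) ≤ 4 ^ (2 * K + 1 + j) := by
  set k := 2 * K + 1 + j with hk
  have h1 : 2 * (m + 4 ^ K) + 1 ≤ 4 ^ (K + 1) := by
    rw [pow_succ]
    omega
  have h2 : k ≤ 2 ^ k := (Nat.lt_two_pow_self).le
  have h16 : 16 ≤ 4 ^ K := by
    calc 16 = 4 ^ 2 := by norm_num
      _ ≤ 4 ^ K := Nat.pow_le_pow_right (by norm_num) hK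
  have h3 : 2 * (4 ^ (K + 1) * 2 ^ (j + 2)) ≤ 4 ^ k := by
    have h4 : (2 : ℕ) ^ j ≤ 4 ^ j := Nat.pow_le_pow_left (by norm_num) j
    have h5 : (4 : ℕ) ^ k = 4 ^ (K + 1) * (4 ^ K * 4 ^ j) := by
      rw [hk]
      ring
    rw [h5]
    have h6 : 2 * 2 ^ (j + 2) ≤ 4 ^ K * 4 ^ j := by
      calc 2 * 2 ^ (j + 2) = 8 * 2 ^ j := by ring
        _ ≤ 4 ^ K * 4 ^ j := Nat.mul_le_mul (by omega) h4
    calc 2 * (4 ^ (K + 1) * 2 ^ (j + 2)) = 4 ^ (K + 1) * (2 * 2 ^ (j + 2)) := by ring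
      _ ≤ _ := Nat.mul_le_mul_left _ h6
  have h4 : 2 * (2 ^ k * 2 ^ (j + 2)) ≤ 4 ^ k := by
    have h5 : (4 : ℕ) ^ k = 2 ^ k * 2 ^ k := by
      rw [← mul_pow]
      norm_num
    have h6 : 2 * 2 ^ (j + 2) ≤ 2 ^ k := by
      calc 2 * 2 ^ (j + 2) = 2 ^ (j + 3) := by ring
        _ ≤ 2 ^ k := Nat.pow_le_pow_right (by norm_num) (by omega)
    calc 2 * (2 ^ k * 2 ^ (j + 2)) = 2 ^ k * (2 * 2 ^ (j + 2)) := by ring
      _ ≤ 2 ^ k * 2 ^ k := Nat.mul_le_mul_left _ h6
      _ = 4 ^ k := h5.symm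
  calc (2 * (m + 4 ^ K) + k + 1) * 2 ^ (j + 2)
      ≤ (4 ^ (K + 1) + 2 ^ k) * 2 ^ (j + 2) := Nat.mul_le_mul_right _ (by omega)
    _ = 4 ^ (K + 1) * 2 ^ (j + 2) + 2 ^ k * 2 ^ (j + 2) := by ring
    _ ≤ 4 ^ k := by omega

theorem badPh_le' {ν : Measure Om} [IsProbabilityMeasure ν]
    (hν : ∀ v : Om, MeasurePreserving (fun u => u + v) ν ν) {m K : ℕ} (j : ℕ) (hK : 2 ≤ K)
    (hm : 2 * m + 1 ≤ 2 * 4 ^ K) :
    ν (badPh (m + 4 ^ K) (2 * K + 1 + j)) ≤ (2⁻¹ : ℝ≥0∞) ^ (j + 2) := by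
  refine (badPh_le hν _ _).trans ?_
  have h1 := level_arith (j := j) hK hm
  set k := 2 * K + 1 + j
  set a := 2 * (m + 4 ^ K) + k + 1
  have h2 : ((a : ℕ) : ℝ≥0∞) * 2 ^ (j + 2) ≤ 4 ^ k := by exact_mod_cast h1
  rw [← div_eq_mul_inv, ENNReal.div_le_iff (by positivity) (by finiteness), ← ENNReal.inv_pow]
  calc ((a : ℕ) : ℝ≥0∞) = ((2 : ℝ≥0∞) ^ (j + 2))⁻¹ * (a * 2 ^ (j + 2)) := by
        rw [mul_comm (a : ℝ≥0∞), ← mul_assoc, ENNReal.inv_mul_cancel (by positivity)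
          (by finiteness), one_mul]
    _ ≤ ((2 : ℝ≥0∞) ^ (j + 2))⁻¹ * 4 ^ k := by gcongr

/-- The good phases. -/
def goodPh (m K L : ℕ) : Set Om :=
  {u | u K = (m : ZMod (4 ^ K)) ∧
    ∀ k, L < k → ∀ i : ℤ, -m ≤ i → i ≤ m → ((i : ZMod (4 ^ k)) + u k).val + k < 4 ^ k}

theorem goodPh_pos {ν : Measure Om} [IsProbabilityMeasure ν]
    (hν : ∀ v : Om, MeasurePreserving (fun u => u + v) ν ν) {m K : ℕ} (hK : 2 ≤ K)
    (hm : 2 * m + 1 ≤ 2 * 4 ^ K) : ν (goodPh m K (2 * K)) ≠ 0 := by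
  intro h0
  have h1 : (⋃ j : ℕ, badPh (m + 4 ^ K) (2 * K + 1 + j))ᶜ ⊆
      ⋃ t ∈ Finset.range (4 ^ K), (fun u : Om => u + (t : Om)) ⁻¹' goodPh m K (2 * K) := by
    intro u hu
    have hval := ZMod.val_lt ((m : ZMod (4 ^ K)) - u K)
    set t := ((m : ZMod (4 ^ K)) - u K).val with ht
    refine Set.mem_biUnion (x := t) (by simpa using hval) ?_
    refine ⟨?_, fun k hk i hi1 hi2 => ?_⟩
    · change (u + (t : Om)) K = (m : ZMod (4 ^ K))
      rw [Pi.add_apply, Pi.natCast_apply, ht, ZMod.natCast_val, ZMod.cast_id]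
      ring
    · by_contra hcon
      push Not at hcon
      apply hu
      rw [Set.mem_iUnion]
      refine ⟨k - (2 * K + 1), ?_⟩
      have h2 : 2 * K + 1 + (k - (2 * K + 1)) = k := by omega
      rw [h2]
      refine ⟨i + t, ?_, ?_, ?_⟩
      · have : (0 : ℤ) ≤ t := Nat.cast_nonneg t
        have h3 : (0 : ℤ) ≤ 4 ^ K := by positivity
        push_cast
        linarith
      · have : (t : ℤ) < 4 ^ K := by exact_mod_cast hval
        push_cast
        linarith
      · have h4 : (i : ZMod (4 ^ k)) + (u + (t : Om)) k =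
            ((i + t : ℤ) : ZMod (4 ^ k)) + u k := by
          rw [Pi.add_apply, Pi.natCast_apply]
          push_cast
          ring
        rw [h4] at hcon
        exact hcon
  have h2 : ν (⋃ j : ℕ, badPh (m + 4 ^ K) (2 * K + 1 + j))ᶜ = 0 := by
    refine measure_mono_null h1 ?_
    refine (measure_biUnion_null_iff (Finset.range (4 ^ K)).countable_toSet).2 ?_
    intro t _
    exact (hν _).quasiMeasurePreserving.preimage_null h0
  have h3 : ν (⋃ j : ℕ, badPh (m + 4 ^ K) (2 * K + 1 + j)) ≤ 2⁻¹ := by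
    refine (measure_iUnion_le _).trans ?_
    calc ∑' j : ℕ, ν (badPh (m + 4 ^ K) (2 * K + 1 + j))
        ≤ ∑' j : ℕ, (2⁻¹ : ℝ≥0∞) ^ (j + 2) := ENNReal.tsum_le_tsum fun j => badPh_le' hν j hK hm
      _ = ∑' j : ℕ, (2⁻¹ : ℝ≥0∞) ^ (j + 1) * 2⁻¹ := by
          congr 1
          funext j
          rw [pow_succ _ (j + 1)]
      _ = 2⁻¹ := by
          rw [ENNReal.tsum_mul_right, ENNReal.tsum_geometric_add_one, ENNReal.one_sub_inv_two,
            inv_inv, ENNReal.inv_mul_cancel (by norm_num) (by norm_num), one_mul]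
  have h4 : (1 : ℝ≥0∞) ≤ 2⁻¹ := by
    calc (1 : ℝ≥0∞) = ν Set.univ := measure_univ.symm
      _ ≤ ν (⋃ j : ℕ, badPh (m + 4 ^ K) (2 * K + 1 + j)) +
          ν (⋃ j : ℕ, badPh (m + 4 ^ K) (2 * K + 1 + j))ᶜ := by
          rw [← Set.union_compl_self (⋃ j : ℕ, badPh (m + 4 ^ K) (2 * K + 1 + j))]
          exact measure_union_le _ _
      _ ≤ 2⁻¹ := by rw [h2, add_zero]; exact h3
  have h5 : (2⁻¹ : ℝ≥0∞) < 1 := ENNReal.inv_lt_one.2 (by norm_num)
  exact absurd h4 (not_le.2 h5)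

section

variable {Y : Type*} [TopologicalSpace Y] [CompactSpace Y] {f : Y → Y} {c : Y → ℤ → Bool}

theorem Coding.isClosedEmbedding (h : Coding f c) : IsClosedEmbedding c :=
  h.cont.isClosedEmbedding h.inj

theorem Coding.continuous (h : Coding f c) : Continuous f := by
  rw [h.isClosedEmbedding.isEmbedding.continuous_iff]
  refine continuous_pi fun i => ?_
  simp only [Function.comp_def, h.shift]
  exact (continuous_apply (i + 1)).comp h.cont

end

section

variable {Y : Type*} [MetricSpace Y] [CompactSpace Y] [MeasurableSpace Y] [BorelSpace Y]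
  {f : Y → Y} {c : Y → ℤ → Bool}

theorem Coding.exists_measure (h : Coding f c) (y : Y) (m : ℕ) :
    ∃ μ : Measure Y, IsProbabilityMeasure μ ∧ MeasurePreserving f μ μ ∧
      μ {y' | ∀ i : ℤ, -m ≤ i → i ≤ m → c y' i = c y i} ≠ 0 := by
  obtain ⟨ν, hν1, hν⟩ := exists_translation_invariant
  set K := m + 2 with hK
  have h4m := two_mul_le_four_pow m
  have h4m1 : 1 ≤ 4 ^ m := Nat.one_le_pow _ _ (by norm_num)
  have h4K : 4 ^ K = 16 * 4 ^ m := by rw [hK]; ring
  have hleg : ∀ u, Legal (phi (c y) m K (2 * K) u) := fun u => phi_legal (h.legal y) (by omega) u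
  choose Φ hΦ using fun u => h.surj _ (hleg u)
  have hme : MeasurableEmbedding c := h.isClosedEmbedding.measurableEmbedding
  have hΦm : Measurable Φ := by
    rw [← hme.measurable_comp_iff, measurable_pi_iff]
    intro i
    have h1 : (fun u => (c ∘ Φ) u i) = fun u => phi (c y) m K (2 * K) u i := by
      funext u
      rw [Function.comp_apply, hΦ]
    rw [h1]
    exact measurable_to_bool (isClosed_phi (c y) m K (2 * K) i).measurableSet
  have hfm : Measurable f := h.continuous.measurable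
  have hsemi : f ∘ Φ = Φ ∘ fun u => u + 1 := by
    funext u
    apply h.inj
    funext i
    rw [Function.comp_apply, Function.comp_apply, h.shift, hΦ, hΦ, phi_shift]
  refine ⟨ν.map Φ, Measure.isProbabilityMeasure_map hΦm.aemeasurable, ⟨hfm, ?_⟩, ?_⟩
  · rw [Measure.map_map hfm hΦm, hsemi, ← Measure.map_map hΦm (hν 1).measurable, (hν 1).map_eq]
  · intro h0
    have h1 : ν (goodPh m K (2 * K)) = 0 := by
      refine measure_mono_null ?_
        (le_antisymm ((Measure.le_map_apply hΦm.aemeasurable _).trans h0.le) zero_le)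
      rintro u ⟨hu1, hu2⟩ i hi1 hi2
      rw [hΦ]
      exact phi_pattern (by omega) hu1 hu2 i hi1 hi2
    exact goodPh_pos hν (by omega) (by omega) h1

theorem exists_full_support_aux {ν : ℕ → Measure Y} (hν : ∀ n, IsProbabilityMeasure (ν n))
    (hf : Measurable f) (hνf : ∀ n, MeasurePreserving f (ν n) (ν n)) :
    ∃ μ : Measure Y, IsProbabilityMeasure μ ∧ MeasurePreserving f μ μ ∧
      ∀ s, μ s = 0 → ∀ n, ν n s = 0 := by
  refine ⟨Measure.sum fun n => (2⁻¹ : ℝ≥0∞) ^ (n + 1) • ν n, ⟨?_⟩, ⟨hf, ?_⟩, ?_⟩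
  · rw [Measure.sum_apply _ MeasurableSet.univ]
    simp only [Measure.smul_apply, measure_univ, smul_eq_mul, mul_one]
    rw [ENNReal.tsum_geometric_add_one, ENNReal.one_sub_inv_two, inv_inv,
      ENNReal.inv_mul_cancel (by norm_num) (by norm_num)]
  · rw [Measure.map_sum hf.aemeasurable]
    congr 1
    funext n
    rw [Measure.map_smul, (hνf n).map_eq]
  · intro s hs n
    have h1 := Measure.le_sum (fun n => (2⁻¹ : ℝ≥0∞) ^ (n + 1) • ν n) n
    have h2 : ((2⁻¹ : ℝ≥0∞) ^ (n + 1) • ν n) s = 0 := le_antisymm ((h1 s).trans hs.le) zero_le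
    rw [Measure.smul_apply, smul_eq_mul, mul_eq_zero] at h2
    rcases h2 with h2 | h2
    · exfalso
      exact pow_ne_zero _ (by norm_num) h2
    · exact h2

theorem Coding.exists_full_support (h : Coding f c) [Nonempty Y] :
    ∃ μ : Measure Y, IsProbabilityMeasure μ ∧ MeasurePreserving f μ μ ∧
      ∀ U : Set Y, IsOpen U → U.Nonempty → 0 < μ U := by
  choose ν hν1 hν2 hν3 using fun p : ℕ × ℕ =>
    h.exists_measure (TopologicalSpace.denseSeq Y p.1) p.2
  obtain ⟨μ, hμ1, hμ2, hμ3⟩ := exists_full_support_aux (f := f)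
    (ν := fun n => ν (Nat.pairEquiv.symm n)) (fun n => hν1 _) h.continuous.measurable
    fun n => hν2 _
  refine ⟨μ, hμ1, hμ2, fun U hU hne => ?_⟩
  rw [pos_iff_ne_zero]
  intro h0
  obtain ⟨n, hn⟩ := (TopologicalSpace.denseRange_denseSeq Y).exists_mem_open hU hne
  obtain ⟨ε, hε, hball⟩ := Metric.isOpen_iff.1 hU _ hn
  obtain ⟨m, hm⟩ := h.agree_close hε
  apply hν3 (n, m)
  have h1 := hμ3 U h0 (Nat.pairEquiv (n, m))
  rw [Equiv.symm_apply_apply] at h1
  refine measure_mono_null ?_ h1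
  intro y hy
  exact hball (hm _ _ hy)

end

end Pool.Agent.E8helper30.Prox
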