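import Mathlib
import Pool.Agent.E8helper30.Prox.Shadow

/-!
# Average shadowing properties
-/

set_option autoImplicit false

namespace Pool.Agent.E8helper30.Prox

open Filter Topology

/-- The average of the first `n` terms of a sequence. -/
noncomputable def avg (g : ℕ → ℝ) (n : ℕ) : ℝ := (1 / (n : ℝ)) * ∑ i ∈ Finset.range n, g i

/-- Average shadowing property. -/
def ASP {X : Type*} [MetricSpace X] (f : X → X) : Prop :=
  ∀ ε : ℝ, 0 < ε → ∃ δ : ℝ, 0 < δ ∧ ∀ x : ℕ → X,
    (∃ N : ℕ, ∀ n : ℕ, N ≤ n → ∀ k : ℕ,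
      avg (fun i => dist (f (x (i + k))) (x (i + k + 1))) n < δ) →
    ∃ z : X, limsup (avg fun i => dist (f^[i] z) (x i)) atTop < ε

/-- Asymptotic average shadowing property. -/
def AASP {X : Type*} [MetricSpace X] (f : X → X) : Prop :=
  ∀ x : ℕ → X, Tendsto (avg fun i => dist (f (x i)) (x (i + 1))) atTop (𝓝 0) →
    ∃ z : X, Tendsto (avg fun i => dist (f^[i] z) (x i)) atTop (𝓝 0)

theorem avg_le_iff {g : ℕ → ℝ} {n : ℕ} (hn : 0 < n) {a : ℝ} :
    avg g n ≤ a ↔ ∑ i ∈ Finset.range n, g i ≤ a * n := by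
  have hn' : (0 : ℝ) < n := by exact_mod_cast hn
  rw [avg, one_div, inv_mul_le_iff₀ hn', mul_comm]

theorem avg_nonneg {g : ℕ → ℝ} (hg : ∀ i, 0 ≤ g i) (n : ℕ) : 0 ≤ avg g n :=
  mul_nonneg (by positivity) (Finset.sum_nonneg fun i _ => hg i)

variable {Y : Type*} [MetricSpace Y] [CompactSpace Y] {f : Y → Y} {c : Y → ℤ → Bool}

theorem exists_bound (Y : Type*) [MetricSpace Y] [CompactSpace Y] :
    ∃ D : ℝ, 0 < D ∧ ∀ y y' : Y, dist y y' ≤ D := by
  obtain ⟨C, hC⟩ := Metric.isBounded_iff.1 (isCompact_univ (X := Y)).isBounded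
  exact ⟨max C 1, by positivity, fun y y' =>
    (hC (Set.mem_univ y) (Set.mem_univ y')).trans (le_max_left _ _)⟩

theorem exists_pow_bound {θ : ℝ} (hθ : 0 < θ) : ∃ K : ℕ, 4 / 2 ^ K ≤ θ := by
  obtain ⟨K, hK⟩ := pow_unbounded_of_one_lt (4 / θ) (one_lt_two (α := ℝ))
  refine ⟨K, ?_⟩
  rw [div_lt_iff₀ hθ] at hK
  rw [div_le_iff₀ (by positivity)]
  linarith

theorem UB_tails_const {K : ℕ} {θ : ℝ} (hK : 4 / 2 ^ K ≤ θ) : UB (tails fun _ => K) θ := by
  refine Eventually.of_forall fun n => (cnt_tails_const K n).trans ?_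
  exact mul_le_mul_of_nonneg_right hK (Nat.cast_nonneg n)

theorem Coding.asp (h : Coding f c) : ASP f := by
  intro ε hε
  obtain ⟨D, hD0, hD⟩ := exists_bound Y
  obtain ⟨m, hm⟩ := h.agree_close (ε := ε / 4) (by positivity)
  set η : ℝ := ε / (4 * D) with hη
  have hη0 : 0 < η := by positivity
  set θ : ℝ := η / (8 * (2 * m + 1)) with hθ
  have hθ0 : 0 < θ := by positivity
  obtain ⟨K, hK⟩ := exists_pow_bound hθ0
  obtain ⟨δ', hδ'0, hδ'⟩ := h.close_agree (max m (4 ^ K))
  set δ : ℝ := δ' * (θ / (2 * (2 * ((4 ^ K : ℕ) : ℝ) + 1))) with hδ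
  have hδ0 : 0 < δ := by positivity
  refine ⟨δ, hδ0, fun x hx => ?_⟩
  obtain ⟨N, hN⟩ := hx
  have hx : ∀ᶠ n : ℕ in atTop, ∑ i ∈ Finset.range n, dist (f (x i)) (x (i + 1)) ≤ δ * n := by
    filter_upwards [eventually_ge_atTop N, eventually_gt_atTop 0] with n h1 h2
    exact (avg_le_iff h2).1 (hN n h1 0).le
  have hJ := UB_jump hδ'0 hδ' h hx
  have hδ1 : δ / δ' = θ / (2 * (2 * ((4 ^ K : ℕ) : ℝ) + 1)) := by
    rw [hδ]
    field_simp
  have hK1 : (1 : ℝ) ≤ 2 * (2 * ((4 ^ K : ℕ) : ℝ) + 1) := by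
    have : (0 : ℝ) ≤ ((4 ^ K : ℕ) : ℝ) := Nat.cast_nonneg _
    linarith
  have hJ1 : UB (Jump c x m) θ := by
    apply hJ.mono (Jump.mono x (le_max_left _ _))
    rw [hδ1]
    exact div_le_self hθ0.le hK1
  have hJ2 : UB (err c x fun _ => K) θ := by
    have h1 : UB (Jump c x (4 ^ K)) (δ / δ') := hJ.mono (Jump.mono x (le_max_right _ _)) le_rfl
    apply (h1.thick (4 ^ K)).mono (err_const_subset x K)
    rw [hδ1]
    apply le_of_eq
    field_simp
  have hJ3 : UB (tails fun _ => K) θ := UB_tails_const hK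
  have hbad : UB (bad c x (fun _ => K) m) η := by
    refine (UB.bad hJ1 hJ2 hJ3 (η₄ := η / 4) (by positivity)).mono subset_rfl ?_
    rw [hθ]
    field_simp
    norm_num
  obtain ⟨z, hz⟩ := h.surj _ (glue_legal (IsLevel.const K) (base c x))
  refine ⟨z, ?_⟩
  have hlim : limsup (avg fun i => dist (f^[i] z) (x i)) atTop ≤ ε / 2 := by
    apply limsup_le_of_le
    · exact isCoboundedUnder_le_of_le _ (x := 0) (fun n => avg_nonneg (fun i => dist_nonneg) n)
    · filter_upwards [hbad, eventually_gt_atTop 0] with n h1 h2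
      rw [avg_le_iff h2]
      refine (sum_dist_le h x _ (ε := ε / 4) (by positivity) hm hD hz n).trans ?_
      have h3 : D * (cnt (bad c x (fun _ => K) m) n : ℝ) ≤ D * (η * n) :=
        mul_le_mul_of_nonneg_left h1 hD0.le
      have h4 : D * (η * n) = ε / 4 * n := by
        rw [hη]
        field_simp
      linarith
  linarith

/-- The times at which the level increases. -/
def times (N : ℕ → ℕ) : ℕ → ℕ
  | 0 => 0
  | (K + 1) => 4 ^ (K + 1) * (times N K + 1 + N (K + 1))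

/-- Existence of a suitable level function. -/
theorem exists_level {E : ℕ → ℕ → Prop} (hE : ∀ K, ∀ᶠ n in atTop, E K n) :
    ∃ κ : ℕ → ℕ, IsLevel κ ∧ Tendsto κ atTop atTop ∧ ∀ n, κ n ≠ 0 → E (κ n) n := by
  classical
  choose N hN using fun K => eventually_atTop.1 (hE K)
  set t : ℕ → ℕ := times N
  have ht0 : t 0 = 0 := rfl
  have hts : ∀ K, t (K + 1) = 4 ^ (K + 1) * (t K + 1 + N (K + 1)) := fun K => rfl
  have htd : ∀ K, 4 ^ K ∣ t K := by
    intro K
    cases K with
    | zero => simp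
    | succ K => exact Dvd.intro _ (hts K).symm
  have htl : ∀ K, t K < t (K + 1) := by
    intro K
    rw [hts]
    have : 0 < 4 ^ (K + 1) := by positivity
    nlinarith
  have htm : StrictMono t := strictMono_nat_of_lt_succ htl
  have htN : ∀ K, N (K + 1) ≤ t (K + 1) := by
    intro K
    rw [hts]
    have : 0 < 4 ^ (K + 1) := by positivity
    nlinarith
  let κ : ℕ → ℕ := fun n => Nat.findGreatest (fun K => t K ≤ n) n
  have hκ1 : ∀ n, t (κ n) ≤ n := by
    intro n
    have h0 : t 0 ≤ n := Nat.zero_le n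
    exact Nat.findGreatest_spec (P := fun K => t K ≤ n) (Nat.zero_le n) h0
  have hκ2 : ∀ n, n < t (κ n + 1) := by
    intro n
    by_contra hcon
    push Not at hcon
    have h1 : κ n + 1 ≤ n := (htm.le_apply).trans hcon
    have h2 : κ n + 1 ≤ κ n := Nat.le_findGreatest (P := fun K => t K ≤ n) h1 hcon
    omega
  have hκ3 : ∀ n K, t K ≤ n → n < t (K + 1) → κ n = K := by
    intro n K h1 h2
    apply le_antisymm
    · have := htm.lt_iff_lt.1 ((hκ1 n).trans_lt h2)
      omega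
    · have := htm.lt_iff_lt.1 (h1.trans_lt (hκ2 n))
      omega
  have hκmono : Monotone κ := by
    intro i j hij
    have := htm.lt_iff_lt.1 (((hκ1 i).trans hij).trans_lt (hκ2 j))
    omega
  refine ⟨κ, ⟨hκmono, ?_, ?_⟩, ?_, ?_⟩
  · intro i
    by_contra hcon
    push Not at hcon
    have h1 := hκ1 (i + 1)
    have h2 := hκ2 i
    have h3 : t (κ i + 2) ≤ t (κ (i + 1)) := htm.monotone (by omega)
    have h4 := htl (κ i + 1)
    have h5 : κ i + 1 + 1 = κ i + 2 := rfl
    rw [h5] at h4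
    omega
  · intro i j hij
    have h40 : 0 < 4 ^ κ i := by positivity
    obtain ⟨u, hu⟩ := htd (κ i)
    obtain ⟨v, hv⟩ := (pow_dvd_pow 4 (Nat.le_succ (κ i))).trans (htd (κ i + 1))
    have h1 := hκ1 i
    have h2 := hκ2 i
    apply hκ3
    · rw [hu] at h1 ⊢
      rw [mul_comm, ← Nat.le_div_iff_mul_le h40] at h1 ⊢
      rw [← hij]
      exact h1
    · rw [hv] at h2 ⊢
      rw [mul_comm, ← Nat.div_lt_iff_lt_mul h40] at h2 ⊢
      rw [← hij]
      exact h2
  · apply tendsto_atTop_mono' atTop (f₁ := κ) (f₂ := κ) (Eventually.of_forall fun _ => le_rfl)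
    rw [tendsto_atTop]
    intro K
    filter_upwards [eventually_ge_atTop (t K)] with n hn
    have := htm.lt_iff_lt.1 (hn.trans_lt (hκ2 n))
    omega
  · intro n hn
    obtain ⟨K, hK⟩ := Nat.exists_eq_succ_of_ne_zero hn
    have h1 := hκ1 n
    rw [hK] at h1 ⊢
    exact hN (K + 1) n ((htN K).trans h1)

theorem Coding.aasp (h : Coding f c) : AASP f := by
  intro x hx
  obtain ⟨D, hD0, hD⟩ := exists_bound Y
  -- jumps have density zero
  have hJ : ∀ (M : ℕ) (η : ℝ), 0 < η → UB (Jump c x M) η := by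
    intro M η hη
    obtain ⟨δ', hδ'0, hδ'⟩ := h.close_agree M
    have h1 : ∀ᶠ n : ℕ in atTop,
        ∑ i ∈ Finset.range n, dist (f (x i)) (x (i + 1)) ≤ (η * δ') * n := by
      filter_upwards [hx.eventually (eventually_lt_nhds (show (0 : ℝ) < η * δ' by positivity)),
        eventually_gt_atTop 0] with n h1 h2
      exact (avg_le_iff h2).1 h1.le
    have h2 := UB_jump hδ'0 hδ' h h1
    apply h2.mono subset_rfl
    rw [mul_div_assoc, div_self hδ'0.ne', mul_one]
  -- the level function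
  obtain ⟨κ, hκ, hκt, hκE⟩ := exists_level
    (E := fun K n => (K + 1) * ((2 * 4 ^ K + 1) * cnt (Jump c x (4 ^ K)) (n + 4 ^ K)) ≤ n) (by
      intro K
      set C : ℝ := 2 * (((K + 1) * (2 * 4 ^ K + 1) : ℕ) : ℝ) with hC
      have hC0 : 0 < C := by positivity
      have h1 : Tendsto (fun n : ℕ => n + 4 ^ K) atTop atTop := tendsto_add_atTop_nat _
      filter_upwards [h1.eventually (hJ (4 ^ K) (1 / C) (by positivity)),
        eventually_ge_atTop (4 ^ K)] with n h2 h3
      have h4 : ((n + 4 ^ K : ℕ) : ℝ) ≤ 2 * n := by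
        have : n + 4 ^ K ≤ 2 * n := by omega
        exact_mod_cast this
      have h5 : (((K + 1) * ((2 * 4 ^ K + 1) * cnt (Jump c x (4 ^ K)) (n + 4 ^ K)) : ℕ) : ℝ)
          ≤ n := by
        have h6 : (((K + 1) * ((2 * 4 ^ K + 1) * cnt (Jump c x (4 ^ K)) (n + 4 ^ K)) : ℕ) : ℝ)
            = C / 2 * cnt (Jump c x (4 ^ K)) (n + 4 ^ K) := by
          rw [hC]
          push_cast
          ring
        rw [h6]
        calc C / 2 * (cnt (Jump c x (4 ^ K)) (n + 4 ^ K) : ℝ)
            ≤ C / 2 * (1 / C * ((n + 4 ^ K : ℕ) : ℝ)) :=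
              mul_le_mul_of_nonneg_left h2 (by positivity)
          _ ≤ C / 2 * (1 / C * (2 * n)) := by
              apply mul_le_mul_of_nonneg_left _ (by positivity)
              exact mul_le_mul_of_nonneg_left h4 (by positivity)
          _ = n := by field_simp
      exact_mod_cast h5)
  have herr : ∀ η : ℝ, 0 < η → UB (err c x κ) η := by
    intro η hη
    obtain ⟨K₀, hK₀⟩ := exists_nat_gt (1 / η)
    filter_upwards [hκt.eventually_ge_atTop (K₀ + 1)] with n hn
    have h1 : cnt (err c x κ) n ≤ cnt (thick (Jump c x (4 ^ κ n)) (4 ^ κ n)) n := by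
      apply cnt_le_of
      rintro i hi ⟨j, hj, h1, h2⟩
      have h3 : κ i ≤ κ n := hκ.mono hi.le
      have h4 : 4 ^ κ i ≤ 4 ^ κ n := Nat.pow_le_pow_right (by norm_num) h3
      refine ⟨j, Jump.mono x h4 hj, ?_, ?_⟩
      · have := cs_le (κ i) i
        omega
      · have := lt_cs_add (κ i) i
        omega
    have h2 := h1.trans (cnt_thick _ _ _)
    have h3 := hκE n (by omega)
    have h4 : (κ n + 1) * cnt (err c x κ) n ≤ n := (Nat.mul_le_mul_left _ h2).trans h3
    have h5 : ((κ n + 1 : ℕ) : ℝ) * cnt (err c x κ) n ≤ n := by exact_mod_cast h4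
    have h6 : 1 / η ≤ ((κ n + 1 : ℕ) : ℝ) := by
      have : (K₀ : ℝ) ≤ ((κ n + 1 : ℕ) : ℝ) := by exact_mod_cast (by omega : K₀ ≤ κ n + 1)
      linarith
    have h7 : (0 : ℝ) ≤ cnt (err c x κ) n := Nat.cast_nonneg _
    have h8 : 1 / η * (cnt (err c x κ) n : ℝ) ≤ n :=
      (mul_le_mul_of_nonneg_right h6 h7).trans h5
    rw [one_div, inv_mul_le_iff₀ hη] at h8
    exact h8
  have htails : ∀ η : ℝ, 0 < η → UB (tails κ) η := by
    intro η hη
    obtain ⟨K, hK⟩ := exists_pow_bound (show 0 < η / 2 by positivity)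
    obtain ⟨N, hN⟩ := eventually_atTop.1 (hκt.eventually_ge_atTop K)
    refine ((UB.Iio N (show 0 < η / 2 by positivity)).union (UB_tails_const hK)).mono ?_
      (by linarith)
    rintro i ⟨k, hk, hk2⟩
    rcases lt_or_ge i N with h1 | h1
    · exact Or.inl h1
    · exact Or.inr ⟨k, (hN i h1).trans hk, hk2⟩
  obtain ⟨z, hz⟩ := h.surj _ (glue_legal hκ (base c x))
  refine ⟨z, ?_⟩
  rw [Metric.tendsto_nhds]
  intro ε hε
  obtain ⟨m, hm⟩ := h.agree_close (ε := ε / 4) (by positivity)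
  set η : ℝ := ε / (4 * D) with hη
  have hη0 : 0 < η := by positivity
  set θ : ℝ := η / (8 * (2 * m + 1)) with hθ
  have hθ0 : 0 < θ := by positivity
  have hbad : UB (bad c x κ m) η := by
    refine (UB.bad (hJ m θ hθ0) (herr θ hθ0) (htails θ hθ0)
      (η₄ := η / 4) (by positivity)).mono subset_rfl ?_
    rw [hθ]
    field_simp
    norm_num
  filter_upwards [hbad, eventually_gt_atTop 0] with n h1 h2
  rw [Real.dist_eq, sub_zero, abs_of_nonneg (avg_nonneg (fun i => dist_nonneg) n)]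
  have h5 : avg (fun i => dist (f^[i] z) (x i)) n ≤ ε / 2 := by
    rw [avg_le_iff h2]
    refine (sum_dist_le h x _ (ε := ε / 4) (by positivity) hm hD hz n).trans ?_
    have h3 : D * (cnt (bad c x κ m) n : ℝ) ≤ D * (η * n) :=
      mul_le_mul_of_nonneg_left h1 hD0.le
    have h4 : D * (η * n) = ε / 4 * n := by
      rw [hη]
      field_simp
    linarith
  linarith

end Pool.Agent.E8helper30.Prox
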