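import Mathlib
import Pool.Agent.E8helper30.Prox.Props
import Pool.Agent.E8helper30.Prox.Meas

/-!
# Minimal points and the space of legal sequences
-/

set_option autoImplicit false

namespace Pool.Agent.E8helper30.Prox

open Filter Topology

/-- A nonempty closed invariant set with no proper nonempty closed invariant subset. -/
def IsMinimalSet {X : Type*} [TopologicalSpace X] (f : X → X) (A : Set X) : Prop :=
  A.Nonempty ∧ IsClosed A ∧ Set.MapsTo f A A ∧
    ∀ B : Set X, B ⊆ A → B.Nonempty → IsClosed B → Set.MapsTo f B B → B = A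

/-- A point whose orbit closure is a minimal set. -/
def IsMinimalPoint {X : Type*} [TopologicalSpace X] (f : X → X) (x : X) : Prop :=
  IsMinimalSet f (closure (Set.range fun n : ℕ => f^[n] x))

theorem legal_zero : Legal fun _ => false := fun k a =>
  ⟨a, le_rfl, by
    have : (k : ℤ) ≤ 4 ^ k := by exact_mod_cast le_four_pow k
    have h4 : (0 : ℤ) < 4 ^ k := by positivity
    linarith, fun _ _ _ => rfl⟩

theorem legal_single : Legal fun i => decide (i = 0) := by
  intro k a
  have h1 : (2 * k : ℤ) ≤ 4 ^ k := by exact_mod_cast two_mul_le_four_pow k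
  have h4 : (0 : ℤ) < 4 ^ k := by positivity
  rcases lt_or_ge 0 (a + k) with h | h
  · rcases lt_or_ge 0 a with ha | ha
    · exact ⟨a, le_rfl, by linarith, fun i hi1 hi2 => decide_eq_false (by omega)⟩
    · exact ⟨1, by linarith, by linarith, fun i hi1 hi2 => decide_eq_false (by omega)⟩
  · exact ⟨a, le_rfl, by linarith, fun i hi1 hi2 => decide_eq_false (by omega)⟩

section

variable {Y : Type*} [MetricSpace Y] [CompactSpace Y] {f : Y → Y} {c : Y → ℤ → Bool}

theorem Coding.zero_mem_closure (h : Coding f c) {o : Y} (ho : c o = fun _ => false) (x : Y) :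
    o ∈ closure (Set.range fun n : ℕ => f^[n] x) := by
  rw [Metric.mem_closure_iff]
  intro ε hε
  obtain ⟨m, hm⟩ := h.agree_close hε
  obtain ⟨b, h1, h2, h3⟩ := h.legal x (2 * m + 1) 0
  obtain ⟨n, rfl⟩ := Int.eq_ofNat_of_zero_le h1
  refine ⟨_, ⟨n + m, rfl⟩, hm _ _ fun i hi1 hi2 => ?_⟩
  rw [h.iterate, ho]
  push_cast at h3 ⊢
  rw [h3 _ (by linarith) (by linarith)]

theorem Coding.fixed (h : Coding f c) {o : Y} (ho : c o = fun _ => false) : f o = o := by
  apply h.inj
  funext i
  rw [h.shift, ho]

theorem Coding.isMinimalPoint_iff (h : Coding f c) {o : Y} (ho : c o = fun _ => false) (x : Y) :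
    IsMinimalPoint f x ↔ x = o := by
  constructor
  · rintro ⟨-, -, -, hmin⟩
    have h1 := hmin {o} (by simpa using h.zero_mem_closure ho x) (Set.singleton_nonempty o)
      isClosed_singleton (by
        intro y hy
        rw [Set.mem_singleton_iff] at hy ⊢
        rw [hy, h.fixed ho])
    have h2 : x ∈ closure (Set.range fun n : ℕ => f^[n] x) := subset_closure ⟨0, rfl⟩
    rw [← h1] at h2
    exact h2
  · rintro rfl
    have h1 : closure (Set.range fun n : ℕ => f^[n] x) = {x} := by
      have : (Set.range fun n : ℕ => f^[n] x) = {x} := by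
        ext y
        simp only [Set.mem_range, Set.mem_singleton_iff]
        constructor
        · rintro ⟨n, rfl⟩
          exact Function.iterate_fixed (h.fixed ho) n
        · rintro rfl
          exact ⟨0, rfl⟩
      rw [this, closure_singleton]
    rw [IsMinimalPoint, h1]
    refine ⟨Set.singleton_nonempty _, isClosed_singleton, ?_, ?_⟩
    · intro y hy
      rw [Set.mem_singleton_iff] at hy ⊢
      rw [hy, h.fixed ho]
    · intro B hB hne _ _
      exact (Set.Nonempty.subset_singleton_iff hne).1 hB

end

/-- The space of legal sequences. -/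
abbrev LX : Type := {x : ℤ → Bool // Legal x}

theorem isClosed_legal : IsClosed {x : ℤ → Bool | Legal x} := by
  have h : {x : ℤ → Bool | Legal x} = ⋂ (k : ℕ), ⋂ (a : ℤ),
      ⋃ b ∈ Finset.Icc a (a + 2 * 4 ^ k - k), ⋂ (i : ℤ), ⋂ (_ : b ≤ i), ⋂ (_ : i < b + k),
        {x : ℤ → Bool | x i = false} := by
    ext x
    simp only [Set.mem_ofPred_eq, Set.mem_iInter, Set.mem_iUnion, Finset.mem_Icc, exists_prop,
      Legal]
    constructor
    · intro h k a
      obtain ⟨b, h1, h2, h3⟩ := h k a
      exact ⟨b, ⟨h1, by linarith⟩, h3⟩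
    · intro h k a
      obtain ⟨b, ⟨h1, h2⟩, h3⟩ := h k a
      exact ⟨b, h1, by linarith, h3⟩
  rw [h]
  refine isClosed_iInter fun k => isClosed_iInter fun a => ?_
  refine Set.Finite.isClosed_biUnion (Finset.finite_toSet _) fun b _ => ?_
  refine isClosed_iInter fun i => isClosed_iInter fun _ => isClosed_iInter fun _ => ?_
  exact isClosed_eq (continuous_apply i) continuous_const

instance compactLX : CompactSpace LX := isCompact_iff_compactSpace.1 isClosed_legal.isCompact

/-- The shift. -/
def shiftLX : LX ≃ₜ LX where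
  toFun x := ⟨fun i => x.1 (i + 1), x.2.shift 1⟩
  invFun x := ⟨fun i => x.1 (i + -1), x.2.shift (-1)⟩
  left_inv x := by
    apply Subtype.ext
    funext i
    simp
  right_inv x := by
    apply Subtype.ext
    funext i
    simp
  continuous_toFun := by
    refine Continuous.subtype_mk (continuous_pi fun i => ?_) _
    exact (continuous_apply (i + 1)).comp continuous_subtype_val
  continuous_invFun := by
    refine Continuous.subtype_mk (continuous_pi fun i => ?_) _
    exact (continuous_apply (i + -1)).comp continuous_subtype_val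

theorem codingLX : Coding (shiftLX : LX → LX) (fun x => x.1) where
  cont := continuous_subtype_val
  inj := Subtype.val_injective
  legal y := y.2
  surj x hx := ⟨⟨x, hx⟩, rfl⟩
  shift _ _ := rfl

end Pool.Agent.E8helper30.Prox
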